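import Pool.Agent.H63.DF.CCc

/-!
# Row CC: the correlations of the functions on the residue classes
-/

set_option autoImplicit false

open NumberField NumberField.InfinitePlace Complex
open scoped nonZeroDivisors

namespace Pool.Agent.H63.DF.CC

open Pool.Agent.H25.HK Pool.Agent.H23.LB Pool.Agent.H23.LC
open Pool.Agent.H28.RC (Rep ft idl)
open Pool.Agent.H29.TC (Gn LC cq dvs AC MC)
open Pool.Agent.H31.SW (DD PP)
open Pool.Agent.H23.DM (Mz D_ZT D_CC PhZ PY FM Fq lg5)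
open Pool.Agent.H23.DF
open Pool.Agent.H63.DF.LS (mem_dvs card_pos Nf_mul Nf_pos Nf_top)
open Pool.Agent.H16.SWX (one_le_Nf)
open Pool.Agent.H81.THC (fi_mono fi_le)
open Pool.Agent.H52.SX (mem_add mem_sub mem_neg mem_zero mem_smul mem_iff_coord nf_le)

section

variable {K : Type} [Field K] [NumberField K]

omit [NumberField K] in
theorem smem (c : 𝓞 K) (J : Ideal (𝓞 K)) (N : FI K) (x : K) (hc : c ∈ J) (hx : x ∈ N) :
    (c : K) * x ∈ (J : FI K) * N :=
  FractionalIdeal.mul_mem_mul (FractionalIdeal.mem_coeIdeal_of_mem _ hc) hx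

omit [NumberField K] in
theorem split_one {I J : Ideal (𝓞 K)} (h : I ⊔ J = ⊤) :
    ∃ a ∈ I, ∃ b ∈ J, a + b = 1 ∧ (a : K) + (b : K) = 1 := by
  obtain ⟨a, ha, b, hb, hab⟩ := Submodule.mem_sup.1 (h ▸ Submodule.mem_top : (1 : 𝓞 K) ∈ I ⊔ J)
  refine ⟨a, ha, b, hb, hab, ?_⟩
  have h4 := congrArg (algebraMap (𝓞 K) K) hab
  rwa [map_add, map_one] at h4

theorem mem_mul_of_cop {I J : Ideal (𝓞 K)} (h : I ⊔ J = ⊤) {L : FI K} {x : K}
    (hI : x ∈ (I : FI K) * L) (hJ : x ∈ (J : FI K) * L) :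
    x ∈ ((I * J : Ideal (𝓞 K)) : FI K) * L := by
  obtain ⟨a, ha, b, hb, -, hab⟩ := split_one h
  have h1 : x = (a : K) * x + (b : K) * x := by linear_combination -x * hab
  rw [h1]
  refine mem_add ?_ ?_
  · rw [FractionalIdeal.coeIdeal_mul, mul_assoc]
    exact smem a I _ x ha hJ
  · rw [mul_comm I J, FractionalIdeal.coeIdeal_mul, mul_assoc]
    exact smem b J _ x hb hI

omit [NumberField K] in
theorem mk_one {b : Ideal (𝓞 K)} {t : 𝓞 K} (ht : t ∈ b) : Ideal.Quotient.mk b (1 + t) = 1 := by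
  rw [map_add, map_one, Ideal.Quotient.eq_zero_iff_mem.2 ht, add_zero]

theorem alg {C F P D t a3 ad ac ak g r e : ℝ} (hC : 0 ≤ C) (hF : 0 < F) (hP : 0 ≤ P)
    (ht : 0 < t) (h3 : 0 < a3) (hd : 1 ≤ ad) (hc : 0 < ac) (hk : 0 < ak) (hg : 0 < g)
    (hr : 0 < r) (he : 0 < e) (hgam : ak ≤ e * ac) (hg1 : ac ^ 2 ≤ g * r) :
    C * (F / (ad ^ 2 * (t * g)) * P) * (ac / ak * (D ^ 2 * (a3 * ad) / a3 ^ 2)) ≤
      C * (D ^ 2 * r * F * (e * a3) / (a3 ^ 2 * t * ak ^ 2)) * P := by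
  have hm : ac / (ak * g) ≤ r * e / ak ^ 2 := by
    rw [div_le_div_iff₀ (by positivity) (by positivity)]
    have h4 : ak * ac ≤ e * (g * r) := by
      calc ak * ac ≤ (e * ac) * ac := mul_le_mul_of_nonneg_right hgam hc.le
        _ = e * ac ^ 2 := by ring
        _ ≤ _ := mul_le_mul_of_nonneg_left hg1 he.le
    nlinarith [mul_le_mul_of_nonneg_left h4 hk.le]
  have hd0 : 0 < ad := by linarith
  calc C * (F / (ad ^ 2 * (t * g)) * P) * (ac / ak * (D ^ 2 * (a3 * ad) / a3 ^ 2))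
      = (C * F * P * D ^ 2 / (t * a3)) * ((ac / (ak * g)) * (1 / ad)) := by
        field_simp
    _ ≤ (C * F * P * D ^ 2 / (t * a3)) * ((r * e / ak ^ 2) * 1) := by
        refine mul_le_mul_of_nonneg_left ?_ (by positivity)
        refine mul_le_mul hm ?_ (by positivity) (by positivity)
        rw [div_le_one hd0]
        exact hd
    _ = C * (D ^ 2 * r * F * (e * a3) / (a3 ^ 2 * t * ak ^ 2)) * P := by
        field_simp

end

theorem pf_CC (hCC : D_CC) (hLS : F_LS) (hCT : F_CT) (hSX : F_SX) (hZT : D_ZT) (hLN : F_LN)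
    (hRX : Pool.Agent.H28.RC.T_RX) : F_CC := by
  classical
  intro n hn
  obtain ⟨C₁, hC₁, hcount⟩ := count hZT hLN n hn
  refine ⟨C₁, hC₁, ?_⟩
  intro K _ _ hK s' s₃ s'' k κ₀ e k' f θ ι I η γ π Y₀ y₂ X₂ hs' hk hf hrad hsk h210 hs hkκ hκr
    hκ6 hFN hek heκ hPY hG hfq hX₂ hγ hper
  subst hs
  have h30 : s₃ ≠ ⊥ := fun h => hs' (by rw [h, Ideal.bot_mul])
  have ht0 : s'' ≠ ⊥ := fun h => hs' (by rw [h, Ideal.mul_bot])
  obtain ⟨hr3, hrt, h3t⟩ := sqf hs' hrad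
  have hl3 : s₃ * s'' ≤ s₃ := Ideal.mul_le_left
  have hlt : s₃ * s'' ≤ s'' := Ideal.mul_le_right
  have hqs : s₃ * s'' * k ≤ s₃ * s'' := Ideal.mul_le_left
  have hqk : s₃ * s'' * k ≤ k := Ideal.mul_le_right
  have hq0 : s₃ * s'' * k ≠ ⊥ := mul_ne_zero hs' hk
  have h2q : Ideal.span {(2 : 𝓞 K)} ⊔ s₃ * s'' * k = ⊤ := by
    rw [← top_le_iff, ← h210]
    refine sup_le_sup_right ?_ _
    rw [Ideal.span_singleton_le_iff_mem, show (210 : 𝓞 K) = 105 * 2 by norm_num]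
    exact Ideal.mul_mem_left _ _ (Ideal.mem_span_singleton_self 2)
  have h2s : Ideal.span {(2 : 𝓞 K)} ⊔ s₃ * s'' = ⊤ := top_le_iff.1 (h2q ▸ sup_le_sup_left hqs _)
  have h23 : Ideal.span {(2 : 𝓞 K)} ⊔ s₃ = ⊤ := top_le_iff.1 (h2s ▸ sup_le_sup_left hl3 _)
  have h2t : Ideal.span {(2 : 𝓞 K)} ⊔ s'' = ⊤ := top_le_iff.1 (h2s ▸ sup_le_sup_left hlt _)
  have hkr : k ≤ k.radical := Ideal.le_radical
  have hr0 : k.radical ≠ ⊥ := fun h => hk (le_bot_iff.1 (h ▸ hkr))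
  have hkk' : k ≤ k' := by rw [hek]; exact Ideal.mul_le_right
  have hk'0 : k' ≠ ⊥ := fun h => hk (le_bot_iff.1 (h ▸ hkk'))
  have hke : k ≤ e := by rw [hek]; exact Ideal.mul_le_left
  have he0 : e ≠ ⊥ := fun h => hk (le_bot_iff.1 (h ▸ hke))
  have hF0 : e * f ≠ ⊥ := mul_ne_zero he0 hf
  have hkA : k ≤ k.radical ⊓ k' := le_inf hkr hkk'
  have hA0 : k.radical ⊓ k' ≠ ⊥ := fun h => hk (le_bot_iff.1 (h ▸ hkA))
  have hπs : Ideal.span {π} ⊔ s₃ * s'' = ⊤ := by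
    have hes : e ⊔ s₃ * s'' = ⊤ := by
      rw [← top_le_iff, ← hsk, sup_comm (s₃ * s'') k]
      exact sup_le_sup_right hke _
    rw [← top_le_iff, ← hes, hPY.span]
    exact sup_le (sup_le le_sup_left (hqs.trans le_sup_right)) le_sup_right
  have hπ3 : Ideal.span {π} ⊔ s₃ = ⊤ := top_le_iff.1 (hπs ▸ sup_le_sup_left hl3 _)
  have hπt : Ideal.span {π} ⊔ s'' = ⊤ := top_le_iff.1 (hπs ▸ sup_le_sup_left hlt _)
  -- the components
  have hSX1 : ∀ i, ∃ (η₁ : 𝓞 K ⧸ (s₃ * s'') → ℂ) (η₂ : 𝓞 K ⧸ k → ℂ), i ∈ I →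
      LC (s₃ * s'') η₁ ∧ LC k η₂ ∧ ∀ Y : 𝓞 K, η i (Ideal.Quotient.mk (s₃ * s'' * k) Y) =
        η₁ (Ideal.Quotient.mk (s₃ * s'') Y) * η₂ (Ideal.Quotient.mk k Y) := by
    intro i
    by_cases hi : i ∈ I
    · obtain ⟨η₁, η₂, h1⟩ := hSX K (s₃ * s'') k hs' hk hsk (η i) (hFN.lc i hi)
      exact ⟨η₁, η₂, fun _ => h1⟩
    · exact ⟨0, 0, fun h => absurd h hi⟩
  choose ηs ηk hsx using hSX1
  have hSX2 : ∀ i, ∃ (η₁ : 𝓞 K ⧸ s₃ → ℂ) (η₂ : 𝓞 K ⧸ s'' → ℂ), i ∈ I →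
      LC s₃ η₁ ∧ LC s'' η₂ ∧ ∀ Y : 𝓞 K, ηs i (Ideal.Quotient.mk (s₃ * s'') Y) =
        η₁ (Ideal.Quotient.mk s₃ Y) * η₂ (Ideal.Quotient.mk s'' Y) := by
    intro i
    by_cases hi : i ∈ I
    · obtain ⟨η₁, η₂, h1⟩ := hSX K s₃ s'' h30 ht0 h3t (ηs i) (hsx i hi).1
      exact ⟨η₁, η₂, fun _ => h1⟩
    · exact ⟨0, 0, fun h => absurd h hi⟩
  choose η3 ηt hsx2 using hSX2
  -- values at `1 + t`
  have hvs : ∀ i ∈ I, ∀ t ∈ k, η i (Ideal.Quotient.mk (s₃ * s'' * k) (1 + t)) =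
      ηs i (Ideal.Quotient.mk (s₃ * s'') (1 + t)) := by
    intro i hi t ht
    rw [(hsx i hi).2.2, mk_one ht, (hsx i hi).2.1.mc.one, mul_one]
  have hvk : ∀ i ∈ I, ∀ t ∈ s₃ * s'', η i (Ideal.Quotient.mk (s₃ * s'' * k) (1 + t)) =
      ηk i (Ideal.Quotient.mk k (1 + t)) := by
    intro i hi t ht
    rw [(hsx i hi).2.2, mk_one ht, (hsx i hi).1.mc.one, one_mul]
  have hv3 : ∀ i ∈ I, ∀ t ∈ s'' * k, η i (Ideal.Quotient.mk (s₃ * s'' * k) (1 + t)) =
      η3 i (Ideal.Quotient.mk s₃ (1 + t)) := by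
    intro i hi t ht
    have h1 : t ∈ k := (Ideal.mul_le_right : s'' * k ≤ k) ht
    have h2 : t ∈ s'' := (Ideal.mul_le_left : s'' * k ≤ s'') ht
    rw [hvs i hi t h1, (hsx2 i hi).2.2, mk_one h2, (hsx2 i hi).2.1.mc.one, mul_one]
  have hvt : ∀ i ∈ I, ∀ t ∈ s₃ * k, η i (Ideal.Quotient.mk (s₃ * s'' * k) (1 + t)) =
      ηt i (Ideal.Quotient.mk s'' (1 + t)) := by
    intro i hi t ht
    have h1 : t ∈ k := (Ideal.mul_le_right : s₃ * k ≤ k) ht
    have h2 : t ∈ s₃ := (Ideal.mul_le_left : s₃ * k ≤ s₃) ht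
    rw [hvs i hi t h1, (hsx2 i hi).2.2, mk_one h2, (hsx2 i hi).1.mc.one, one_mul]
  have hcop3k : s₃ ⊔ k = ⊤ := top_le_iff.1 (hsk ▸ sup_le_sup_right hl3 _)
  have hcoptk : s'' ⊔ k = ⊤ := top_le_iff.1 (hsk ▸ sup_le_sup_right hlt _)
  have hc3 : s₃ ⊔ s'' * k = ⊤ := Ideal.isCoprime_iff_sup_eq.1
    ((Ideal.isCoprime_iff_sup_eq.2 h3t).mul_right (Ideal.isCoprime_iff_sup_eq.2 hcop3k))
  have hct : s'' ⊔ s₃ * k = ⊤ := Ideal.isCoprime_iff_sup_eq.1
    ((Ideal.isCoprime_iff_sup_eq.2 (sup_comm s₃ s'' ▸ h3t)).mul_right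
      (Ideal.isCoprime_iff_sup_eq.2 hcoptk))
  have hηt : ∀ i ∈ I, ∀ j ∈ I, ηt i = ηt j := by
    intro i hi j hj
    funext Y
    obtain ⟨X, rfl⟩ := Ideal.Quotient.mk_surjective Y
    obtain ⟨b, hb, a, ha, hab, -⟩ := split_one hct
    have h1 : ∀ t ∈ s₃ * k, η i (Ideal.Quotient.mk (s₃ * s'' * k) (1 + t)) =
        η j (Ideal.Quotient.mk (s₃ * s'' * k) (1 + t)) := by
      refine (hFN.eq i hi j hj (s₃ * k) s'' ?_ ?_).1 (hγ i hi j hj).1
      · exact (Ideal.mul_le_right : s₃ * k ≤ k).trans hkκ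
      · rw [mul_assoc, mul_comm s'' k, mul_assoc]
    have h2 : a * (X - 1) ∈ s₃ * k := Ideal.mul_mem_right _ _ ha
    have h3 := h1 _ h2
    rw [hvt i hi _ h2, hvt j hj _ h2] at h3
    have h4 : Ideal.Quotient.mk s'' (1 + a * (X - 1)) = Ideal.Quotient.mk s'' X := by
      rw [Ideal.Quotient.mk_eq_mk_iff_sub_mem]
      have h5 : 1 + a * (X - 1) - X = b * (1 - X) := by linear_combination (X - 1) * hab
      rw [h5]
      exact Ideal.mul_mem_right _ _ hb
    rwa [h4] at h3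
  have hFM : FM k κ₀ θ I ηk γ := by
    refine ⟨hFN.nd, fun j hj => (hsx j hj).2.1, ?_⟩
    intro j hj y hy
    obtain ⟨t', ht', rfl⟩ :=
      (Ideal.mem_map_iff_of_surjective _ Ideal.Quotient.mk_surjective).1 hy
    obtain ⟨a, ha, b, hb, hab, -⟩ := split_one hsk
    have h1 : a * t' ∈ s₃ * s'' ⊓ κ₀ := ⟨Ideal.mul_mem_right _ _ ha, Ideal.mul_mem_left _ _ ht'⟩
    have h2 := hFN.fq j hj _ h1
    have h3 : Ideal.Quotient.mk k (a * t') = Ideal.Quotient.mk k t' := by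
      rw [Ideal.Quotient.mk_eq_mk_iff_sub_mem]
      have h5 : a * t' - t' = b * (-t') := by linear_combination t' * hab
      rw [h5]
      exact Ideal.mul_mem_right _ _ hb
    rw [hvk j hj _ h1.1, map_add, map_one, h3] at h2
    exact h2
  -- the lattice
  obtain ⟨hL0, -⟩ := hLN K ⊤ (e * f) (by
    intro h
    have h1 : (1 : 𝓞 K) ∈ (⊤ : Ideal (𝓞 K)) := trivial
    rw [h, Ideal.mem_bot] at h1
    exact one_ne_zero h1) hF0
  obtain ⟨Xe, hXe, hpkper, hkn, hkz, hkc⟩ := kpart hCC hRX (I := I) (ηk := ηk) (γ := γ)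
    (θ := θ) hs' hk hf hsk h210 hkκ hκr hκ6 hFM hek heκ hPY hG hfq hper
  have hAs : k.radical ⊓ k' ⊔ s₃ * s'' = ⊤ := by
    rw [← top_le_iff, ← hsk, sup_comm (s₃ * s'') k]
    exact sup_le_sup_right hkA _
  obtain ⟨u₁, u₂, -, -, -, hCT1⟩ := hCT K (k.radical ⊓ k') (s₃ * s'') hA0 hs' hAs
  obtain ⟨v₁, v₂, -, -, -, hCT2⟩ := hCT K s₃ s'' h30 ht0 h3t
  obtain ⟨hu, hCT1⟩ := hCT1 _ hL0
  obtain ⟨hv, hCT2⟩ := hCT2 _ hL0
  have hnorm : ∀ F : Ideal (𝓞 K), 0 ≤ Nf K F := fun F => by unfold Nf; positivity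
  unfold ww
  generalize hL : Mz K (e * f) = L at *
  generalize hr : k.radical = r at *
  generalize hA : r ⊓ k' = A at *
  obtain ⟨X3, hX3, -⟩ := hRX K s₃ L h30 hL0
  obtain ⟨Xt, hXt, -⟩ := hRX K s'' L ht0 hL0
  obtain ⟨XS, hXS, -⟩ := hRX K (s₃ * s'') L hs' hL0
  have hq3 := (Pool.Agent.H29.THC.pf_CQ K (s₃ * s'' * k) (fun _ => 0) L y₂ hq0 hL0 hG).2.2
  have hGs : Gn (s₃ * s'') L y₂ := hq3 _ hqs
  have hG3 : Gn s₃ L y₂ := hq3 _ (hqs.trans hl3)
  have hGt : Gn s'' L y₂ := hq3 _ (hqs.trans hlt)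
  have hper3 : ∀ (h : 𝓞 K ⧸ s₃ → ℂ), ∀ x ∈ L, ∀ t ∈ (s₃ : FI K) * L,
      cq s₃ h L y₂ (x + t) = cq s₃ h L y₂ x := fun h =>
    (Pool.Agent.H29.THC.pf_CQ K s₃ h L y₂ h30 hL0 hG3).2.1
  have hpert : ∀ (h : 𝓞 K ⧸ s'' → ℂ), ∀ x ∈ L, ∀ t ∈ (s'' : FI K) * L,
      cq s'' h L y₂ (x + t) = cq s'' h L y₂ x := fun h =>
    (Pool.Agent.H29.THC.pf_CQ K s'' h L y₂ ht0 hL0 hGt).2.1
  have hperst : ∀ (h₁ : 𝓞 K ⧸ s₃ → ℂ) (h₂ : 𝓞 K ⧸ s'' → ℂ), ∀ x ∈ L,
      ∀ t ∈ ((s₃ * s'' : Ideal (𝓞 K)) : FI K) * L,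
      cq s₃ h₁ L y₂ (x + t) * cq s'' h₂ L y₂ (x + t) = cq s₃ h₁ L y₂ x * cq s'' h₂ L y₂ x := by
    intro h₁ h₂ x hx t ht
    rw [hper3 h₁ x hx t (fi_mono hl3 L ht), hpert h₂ x hx t (fi_mono hlt L ht)]
  -- the product formula for the transforms
  have hkey : ∀ (c : K → ℂ) (h₁ : 𝓞 K ⧸ s₃ → ℂ) (h₂ : 𝓞 K ⧸ s'' → ℂ),
      (∀ x ∈ L, ∀ t ∈ (A : FI K) * L, c (x + t) = c x) → ∀ X : Finset K,
      Rep K (A * (s₃ * s'')) L X → ∀ ν ∈ du K (((A * (s₃ * s'') : Ideal (𝓞 K)) : FI K) * L),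
      ft K X (fun x => c x * (cq s₃ h₁ L y₂ x * cq s'' h₂ L y₂ x)) ν =
        ft K Xe c (u₁ * ν) * (ft K X3 (cq s₃ h₁ L y₂) (v₁ * (u₂ * ν)) *
          ft K Xt (cq s'' h₂ L y₂) (v₂ * (u₂ * ν))) := by
    intro c h₁ h₂ hc X hX ν hν
    rw [hCT1 c (fun x => cq s₃ h₁ L y₂ x * cq s'' h₂ L y₂ x) hc (hperst h₁ h₂) X Xe XS hX hXe
      hXS ν hν, hCT2 _ _ (hper3 h₁) (hpert h₂) XS X3 Xt hXS hX3 hXt _ (hu ν hν).2]
  have hE : ∀ i ∈ I, ∀ ν ∈ du K (((A * (s₃ * s'') : Ideal (𝓞 K)) : FI K) * L),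
      ft K X₂ (PhZ (s₃ * s'' * k) r (e * f) π Y₀ y₂ (η i)) ν =
        ft K Xe (pK L k r π Y₀ y₂ (ηk i)) (u₁ * ν) *
          (ft K X3 (cq s₃ (gg s₃ π (η3 i)) L y₂) (v₁ * (u₂ * ν)) *
          ft K Xt (cq s'' (gg s'' π (ηt i)) L y₂) (v₂ * (u₂ * ν))) := by
    intro i hi ν hν
    rw [← hkey _ _ _ (hpkper i hi) X₂ hX₂ ν hν]
    refine ft_congr fun x hx => ?_
    rw [PhZ_eq, hL, pK_mul hs' hk hL0 hG (hsx i hi).2.2 (hX₂.1 x hx),
      cq_gg_mul h30 ht0 hL0 hGs (hsx2 i hi).2.2 (hX₂.1 x hx)]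
  have hN3 : 0 < Nf K s₃ := Nf_pos h30
  have hNt : 0 < Nf K s'' := Nf_pos ht0
  have hNk : 0 < Nf K k' := Nf_pos hk'0
  have hNr : 0 < Nf K r := Nf_pos hr0
  have hNe : 0 < Nf K e := Nf_pos he0
  have hsq3 : 0 < Real.sqrt (Nf K s₃) := Real.sqrt_pos.2 hN3
  have hsqt : 0 < Real.sqrt (Nf K s'') := Real.sqrt_pos.2 hNt
  have hsqk : 0 < Real.sqrt (Nf K k') := Real.sqrt_pos.2 hNk
  have hNs : Nf K (s₃ * s'' * k') = Nf K s₃ * Nf K s'' * Nf K k' := by rw [Nf_mul, Nf_mul]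
  have hW : Real.sqrt (Nf K (s₃ * s'' * k')) =
      Real.sqrt (Nf K s₃) * Real.sqrt (Nf K s'') * Real.sqrt (Nf K k') := by
    rw [hNs, Real.sqrt_mul (by positivity), Real.sqrt_mul hN3.le]
  have hEE : ∀ i ∈ I, ∀ ν ∈ du K (((A * (s₃ * s'') : Ideal (𝓞 K)) : FI K) * L),
      ft K X₂ (PhZ (s₃ * s'' * k) r (e * f) π Y₀ y₂ (η i)) ν /
        ((Real.sqrt (Nf K (s₃ * s'' * k')) : ℝ) : ℂ) =
      ft K Xt (cq s'' (gg s'' π (ηt i)) L y₂) (v₂ * (u₂ * ν)) / ((Real.sqrt (Nf K s'') : ℝ) : ℂ) *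
      (ft K Xe (pK L k r π Y₀ y₂ (ηk i)) (u₁ * ν) / ((Real.sqrt (Nf K k') : ℝ) : ℂ) *
      (ft K X3 (cq s₃ (gg s₃ π (η3 i)) L y₂) (v₁ * (u₂ * ν)) /
        ((Real.sqrt (Nf K s₃) : ℝ) : ℂ))) := by
    intro i hi ν hν
    rw [hE i hi ν hν, hW]
    have h1 : ((Real.sqrt (Nf K s₃) : ℝ) : ℂ) ≠ 0 := by exact_mod_cast hsq3.ne'
    have h2 : ((Real.sqrt (Nf K s'') : ℝ) : ℂ) ≠ 0 := by exact_mod_cast hsqt.ne'
    have h3 : ((Real.sqrt (Nf K k') : ℝ) : ℂ) ≠ 0 := by exact_mod_cast hsqk.ne'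
    push_cast
    field_simp
  have h0du : ∀ N : FI K, (0 : K) ∈ du K N := fun N => mem_zero
  -- the bounds for the components
  have hb3 := fun i (hi : i ∈ I) => ls_ft hLS h30 hL0 hG3 hX3 hr3 h23 hπ3 (hsx2 i hi).1
  have hbt := fun i (hi : i ∈ I) => ls_ft hLS ht0 hL0 hGt hXt hrt h2t hπt (hsx2 i hi).2.1
  have hd3 : ((dvs K s₃).card : ℝ) ≤ (dvs K (s₃ * s'')).card := dvs_mono hs' hl3
  have hdt : ((dvs K s'').card : ℝ) ≤ (dvs K (s₃ * s'')).card := dvs_mono hs' hlt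
  have hr1 : 1 ≤ Nf K r := one_le_Nf hr0
  have hq : ∀ (z : ℂ) (D N : ℝ), 0 < N → ‖z‖ ≤ D * Real.sqrt N →
      ‖z / ((Real.sqrt N : ℝ) : ℂ)‖ ≤ D := by
    intro z D N hN hz
    rw [norm_div, Complex.norm_real, Real.norm_of_nonneg (Real.sqrt_nonneg _),
      div_le_iff₀ (Real.sqrt_pos.2 hN)]
    exact hz
  refine ⟨?_, ?_⟩
  · -- the value at zero
    intro i hi
    rw [hEE i hi 0 (h0du _)]
    simp only [mul_zero]
    rw [norm_mul, norm_mul, mul_pow, mul_pow, hNs]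
    have h1 := hkz i hi
    have h2 : ‖ft K X3 (cq s₃ (gg s₃ π (η3 i)) L y₂) 0 / ((Real.sqrt (Nf K s₃) : ℝ) : ℂ)‖ ^ 2 ≤
        1 / Nf K s₃ := by
      rw [norm_div, Complex.norm_real, Real.norm_of_nonneg (Real.sqrt_nonneg _), div_pow,
        Real.sq_sqrt hN3.le]
      exact div_le_div_of_nonneg_right (pow_le_one₀ (norm_nonneg _) (hb3 i hi).2) hN3.le
    have h3 : ‖ft K Xt (cq s'' (gg s'' π (ηt i)) L y₂) 0 / ((Real.sqrt (Nf K s'') : ℝ) : ℂ)‖ ^ 2 ≤
        1 / Nf K s'' := by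
      rw [norm_div, Complex.norm_real, Real.norm_of_nonneg (Real.sqrt_nonneg _), div_pow,
        Real.sq_sqrt hNt.le]
      exact div_le_div_of_nonneg_right (pow_le_one₀ (norm_nonneg _) (hbt i hi).2) hNt.le
    calc _ ≤ 1 / Nf K s'' * (Nf K r ^ 2 / Nf K k' * (1 / Nf K s₃)) := by
          refine mul_le_mul h3 (mul_le_mul h1 h2 (by positivity) (by positivity)) (by positivity)
            (by positivity)
      _ = Nf K r ^ 2 / (Nf K s₃ * Nf K s'' * Nf K k') := by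
          field_simp
  · -- the factorisation
    by_cases hI : I.Nonempty
    swap
    · rw [Finset.not_nonempty_iff_eq_empty] at hI
      subst hI
      refine ⟨0, 0, ?_, ?_, ?_⟩
      · intro ν _
        rw [Pi.zero_apply, norm_zero, zero_pow two_ne_zero]
        positivity
      · intro i hi
        exact absurd hi (Finset.notMem_empty i)
      · intro i hi
        exact absurd hi (Finset.notMem_empty i)
    obtain ⟨i₀, hi₀⟩ := hI
    have hNh : Nh (A * (s₃ * s'')) (e * f) =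
        du K (((A * (s₃ * s'') : Ideal (𝓞 K)) : FI K) * L) := by
      unfold Nh
      rw [hL]
    rw [hNh]
    refine ⟨fun ν => ft K Xt (cq s'' (gg s'' π (ηt i₀)) L y₂) (v₂ * (u₂ * ν)) /
        ((Real.sqrt (Nf K s'') : ℝ) : ℂ),
      fun i ν => ft K Xe (pK L k r π Y₀ y₂ (ηk i)) (u₁ * ν) / ((Real.sqrt (Nf K k') : ℝ) : ℂ) *
        (ft K X3 (cq s₃ (gg s₃ π (η3 i)) L y₂) (v₁ * (u₂ * ν)) /
        ((Real.sqrt (Nf K s₃) : ℝ) : ℂ)), ?_, ?_, ?_⟩
    · intro ν hν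
      beta_reduce
      have h1 := hq _ _ _ hNt ((hbt i₀ hi₀).1 _ (hv _ (hu ν hν).2).2)
      calc _ ≤ ((dvs K s'').card : ℝ) ^ 2 := pow_le_pow_left₀ (norm_nonneg _) h1 2
        _ ≤ ((dvs K (s₃ * s'')).card : ℝ) ^ 2 := pow_le_pow_left₀ (by positivity) hdt 2
        _ ≤ _ := le_mul_of_one_le_left (by positivity) hr1
    · intro i hi ν hν
      beta_reduce
      constructor
      · have h1 := hq _ _ _ hN3 ((hb3 i hi).1 _ (hv _ (hu ν hν).2).1)
        have h2 := hkn i hi _ (hu ν hν).1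
        rw [norm_mul, mul_pow]
        refine mul_le_mul h2 ?_ (by positivity) (by positivity)
        exact (pow_le_pow_left₀ (norm_nonneg _) h1 2).trans
          (pow_le_pow_left₀ (by positivity) hd3 2)
      · rw [hEE i hi ν hν, hηt i hi i₀ hi₀]
    · intro i hi j hj
      obtain ⟨Ck, g, hg0, hAg, hg1, hg2, hg3, hg4, hg5, hg6⟩ := hkc i hi j hj
      have hfin3 : Finite (𝓞 K ⧸ s₃) := Ideal.finiteQuotientOfFreeOfNeBot s₃ h30
      let _ : Fintype (𝓞 K ⧸ s₃) := Fintype.ofFinite _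
      have hfint : Finite (𝓞 K ⧸ s'') := Ideal.finiteQuotientOfFreeOfNeBot s'' ht0
      let _ : Fintype (𝓞 K ⧸ s'') := Fintype.ofFinite _
      obtain ⟨hc3a, hc3b⟩ := ls_cor hLS h30 hr3 h23 hπ3 (hsx2 i hi).1 (hsx2 j hj).1
      generalize hgi : gg s₃ π (η3 i) = gi at *
      generalize hgj : gg s₃ π (η3 j) = gj at *
      set H3 : 𝓞 K ⧸ s₃ → ℂ := fun X => cor gi gj X / ((Nf K s₃ : ℝ) : ℂ) with hH3
      set Ht : 𝓞 K ⧸ s'' → ℂ := fun Y => if Y = 0 then 1 else 0 with hHt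
      have hval3 : ∀ (X : 𝓞 K) (x : K), x - (X : K) * y₂ ∈ (s₃ : FI K) * L →
          cq s₃ H3 L y₂ x = cor gi gj (Ideal.Quotient.mk s₃ X) / ((Nf K s₃ : ℝ) : ℂ) := by
        intro X x hx
        rw [(Pool.Agent.H29.THC.pf_CQ K s₃ H3 L y₂ h30 hL0 hG3).1 X x hx]
      have hvalt : ∀ (X : 𝓞 K) (x : K), x - (X : K) * y₂ ∈ (s'' : FI K) * L →
          cq s'' Ht L y₂ x = if Ideal.Quotient.mk s'' X = 0 then 1 else 0 := by
        intro X x hx
        rw [(Pool.Agent.H29.THC.pf_CQ K s'' Ht L y₂ ht0 hL0 hGt).1 X x hx]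
      have hft3 : ∀ w ∈ du K ((s₃ : FI K) * L), ft K X3 (cq s₃ H3 L y₂) w =
          ft K X3 (cq s₃ gi L y₂) w / ((Real.sqrt (Nf K s₃) : ℝ) : ℂ) *
          (starRingEnd ℂ) (ft K X3 (cq s₃ gj L y₂) w / ((Real.sqrt (Nf K s₃) : ℝ) : ℂ)) := by
        intro w hw
        rw [ft_cq h30 hL0 hG3 hw hX3, ft_cq h30 hL0 hG3 hw hX3, ft_cq h30 hL0 hG3 hw hX3]
        have h1 := ft_cor (tq_ac h30 hL0 hG3.mem hw) gi gj
        have h2 : ((Real.sqrt (Nf K s₃) : ℝ) : ℂ) * ((Real.sqrt (Nf K s₃) : ℝ) : ℂ) =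
            ((Nf K s₃ : ℝ) : ℂ) := by
          rw [← Complex.ofReal_mul, Real.mul_self_sqrt hN3.le]
        rw [map_div₀, Complex.conj_ofReal, div_mul_div_comm, h2, ← h1, Finset.sum_div]
        refine Finset.sum_congr rfl fun X _ => ?_
        rw [hH3]
        beta_reduce
        ring
      have hftt : ∀ w ∈ du K ((s'' : FI K) * L), ft K Xt (cq s'' Ht L y₂) w = 1 := by
        intro w hw
        rw [ft_cq ht0 hL0 hGt hw hXt, hHt]
        simp only [ite_mul, one_mul, zero_mul, Finset.sum_ite_eq', Finset.mem_univ, if_true]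
        exact (tq_ac ht0 hL0 hGt.mem hw).zero
      have hN3C : ‖((Nf K s₃ : ℝ) : ℂ)‖ = Nf K s₃ := by
        rw [Complex.norm_real, Real.norm_of_nonneg hN3.le]
      have h00 : ((0 : 𝓞 K) : K) = 0 := map_zero (algebraMap (𝓞 K) K)
      have hNc : 0 < Nf K (k' ⊔ Ideal.span {γ i - γ j}) := Nf_pos fun h =>
        hk'0 (le_bot_iff.1 (h ▸ le_sup_left))
      refine ⟨fun x => Ck x * (cq s₃ H3 L y₂ x * cq s'' Ht L y₂ x), ?_, ?_, ?_, ?_⟩
      · -- period
        intro x hx t ht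
        rw [hL] at hx ht
        beta_reduce
        have hAl : A * (s₃ * s'') ≤ A := Ideal.mul_le_left
        have hAl2 : A * (s₃ * s'') ≤ s₃ * s'' := Ideal.mul_le_right
        rw [hg2 x hx t (fi_mono hAl L ht), hperst H3 Ht x hx t (fi_mono hAl2 L ht)]
      · -- the value at zero
        beta_reduce
        rw [hval3 0 0 (by rw [h00, zero_mul, sub_zero]; exact mem_zero),
          hvalt 0 0 (by rw [h00, zero_mul, sub_zero]; exact mem_zero), map_zero, map_zero,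
          if_pos rfl, mul_one, norm_mul, norm_div, hN3C]
        have h1 : ‖cor gi gj 0‖ ≤ Nf K (s₃ ⊔ Ideal.span {γ i - γ j}) := by
          apply hc3b
          intro P κ' hP hsP
          rw [hFN.eq i hi j hj (κ' * (s'' * k)) P ?_ ?_]
          · constructor
            · intro h t ht
              obtain ⟨b, hb, a, ha, hab, -⟩ := split_one hc3
              have h2 : a * t ∈ κ' * (s'' * k) := by
                rw [mul_comm a t]
                exact Ideal.mul_mem_mul ht ha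
              have h3 : a * t ∈ s'' * k := Ideal.mul_mem_right _ _ ha
              have h4 := h _ h2
              rw [hv3 i hi _ h3, hv3 j hj _ h3] at h4
              have h5 : Ideal.Quotient.mk s₃ (1 + a * t) = Ideal.Quotient.mk s₃ (1 + t) := by
                rw [Ideal.Quotient.mk_eq_mk_iff_sub_mem]
                have h6 : 1 + a * t - (1 + t) = b * (-t) := by linear_combination t * hab
                rw [h6]
                exact Ideal.mul_mem_right _ _ hb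
              rwa [h5] at h4
            · intro h t ht
              have h3 : t ∈ s'' * k := (Ideal.mul_le_right : κ' * (s'' * k) ≤ s'' * k) ht
              have h4 : t ∈ κ' := (Ideal.mul_le_left : κ' * (s'' * k) ≤ κ') ht
              rw [hv3 i hi _ h3, hv3 j hj _ h3]
              exact h t h4
          · exact ((Ideal.mul_le_right : κ' * (s'' * k) ≤ s'' * k).trans Ideal.mul_le_right).trans
              hkκ
          · rw [hsP]
            ring
        have h2 : ‖Ck 0‖ ^ 2 ≤ 1 := by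
          refine (hg3 0 mem_zero).trans ((div_le_one hNk).2 ?_)
          exact nf_le hk'0 le_sup_left
        have h3 : ‖Ck 0‖ ≤ 1 := by nlinarith [norm_nonneg (Ck 0)]
        split_ifs with hif
        · calc ‖Ck 0‖ * (‖cor gi gj 0‖ / Nf K s₃) ≤ 1 * (‖cor gi gj 0‖ / Nf K s₃) := by
                exact mul_le_mul_of_nonneg_right h3 (by positivity)
            _ = ‖cor gi gj 0‖ / Nf K s₃ := one_mul _
            _ ≤ _ := div_le_div_of_nonneg_right h1 hN3.le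
        · have h4 : Ck 0 = 0 := by
            by_contra h
            exact hif (hg5 h)
          rw [h4, norm_zero, zero_mul]
      · -- the sums over boxes
        intro β hβ X₁ hX₁
        rw [hL] at hX₁
        set c : Ideal (𝓞 K) := k' ⊔ Ideal.span {γ i - γ j} with hc
        have hco : ∀ x : K, ∃ a : 𝓞 K, x ∈ L →
            x - (a : K) * y₂ ∈ ((s₃ * s'' : Ideal (𝓞 K)) : FI K) * L := by
          intro x
          by_cases hx : x ∈ L
          · obtain ⟨a, -, ha⟩ := hGs.gen x hx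
            exact ⟨a, fun _ => ha⟩
          · exact ⟨0, fun h => absurd h hx⟩
        choose co hco using hco
        set B : Ideal (𝓞 K) → ℝ := fun d => Real.sqrt (Nf K c / Nf K k') *
          ((dvs K s₃).card ^ 2 * Real.sqrt (Nf K s₃ * Nf K d) / Nf K s₃) with hB
        have hB0 : ∀ d, 0 ≤ B d := fun d => by rw [hB]; positivity
        have hsg : s'' * k ≤ s'' * g := Ideal.mul_mono_right (hkA.trans hAg)
        have hpt : ∀ x ∈ X₁, ‖Ck x * (cq s₃ H3 L y₂ x * cq s'' Ht L y₂ x)‖ ≤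
            ∑ d ∈ dvs K s₃, if x ∈ ((d * (s'' * g) : Ideal (𝓞 K)) : FI K) * L then B d else 0 := by
          intro x hx
          have hxL := (hX₁ x hx).1
          have hcx := hco x hxL
          by_cases hz : Ck x * (cq s₃ H3 L y₂ x * cq s'' Ht L y₂ x) = 0
          · rw [hz, norm_zero]
            refine Finset.sum_nonneg fun d _ => ?_
            split_ifs
            · exact hB0 d
            · exact le_rfl
          · have hz1 : Ck x ≠ 0 := left_ne_zero_of_mul hz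
            have hz2 : cq s'' Ht L y₂ x ≠ 0 := right_ne_zero_of_mul (right_ne_zero_of_mul hz)
            have hvt' := hvalt (co x) x (fi_mono hlt L hcx)
            have hco0 : Ideal.Quotient.mk s'' (co x) = 0 := by
              by_contra h
              rw [if_neg h] at hvt'
              exact hz2 hvt'
            have hxt : x ∈ (s'' : FI K) * L := by
              rw [mem_iff_coord hGs hcx s'' hlt]
              exact Ideal.Quotient.eq_zero_iff_mem.1 hco0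
            have hxg : x ∈ (g : FI K) * L := hg4 x hxL hz1
            set d : Ideal (𝓞 K) := s₃ ⊔ Ideal.span {co x} with hd
            have h3d : s₃ ≤ d := le_sup_left
            have hxd : x ∈ (d : FI K) * L := by
              rw [mem_iff_coord hGs hcx d (hl3.trans h3d)]
              exact (le_sup_right : Ideal.span {co x} ≤ d) (Ideal.mem_span_singleton_self _)
            have htg : s'' ⊔ g = ⊤ := by
              rw [← top_le_iff, ← hcoptk]
              exact sup_le_sup_left (hkA.trans hAg) _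
            have hxtg := mem_mul_of_cop htg hxt hxg
            have hdtg : d ⊔ s'' * g = ⊤ := by
              rw [← top_le_iff, ← hc3]
              exact sup_le_sup h3d hsg
            have hxall := mem_mul_of_cop hdtg hxd hxtg
            have h1 : ‖Ck x‖ ≤ Real.sqrt (Nf K c / Nf K k') := by
              rw [← Real.sqrt_sq (norm_nonneg (Ck x))]
              exact Real.sqrt_le_sqrt (hg3 x hxL)
            have h2 : ‖cq s₃ H3 L y₂ x‖ ≤
                (dvs K s₃).card ^ 2 * Real.sqrt (Nf K s₃ * Nf K d) / Nf K s₃ := by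
              rw [hval3 (co x) x (fi_mono hl3 L hcx), norm_div, hN3C]
              exact div_le_div_of_nonneg_right (hc3a (co x)) hN3.le
            have h3 : ‖cq s'' Ht L y₂ x‖ ≤ 1 := by
              rw [hvt', if_pos hco0, norm_one]
            have h4 : ‖Ck x * (cq s₃ H3 L y₂ x * cq s'' Ht L y₂ x)‖ ≤ B d := by
              rw [norm_mul, norm_mul, hB]
              refine mul_le_mul h1 ?_ (by positivity) (Real.sqrt_nonneg _)
              calc ‖cq s₃ H3 L y₂ x‖ * ‖cq s'' Ht L y₂ x‖ ≤ ‖cq s₃ H3 L y₂ x‖ * 1 :=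
                    mul_le_mul_of_nonneg_left h3 (norm_nonneg _)
                _ = ‖cq s₃ H3 L y₂ x‖ := mul_one _
                _ ≤ _ := h2
            refine h4.trans ?_
            have h5 : d ∈ dvs K s₃ := (mem_dvs h30 d).2 h3d
            refine le_trans ?_ (Finset.single_le_sum (f := fun d =>
              if x ∈ ((d * (s'' * g) : Ideal (𝓞 K)) : FI K) * L then B d else 0)
              (fun d' _ => ?_) h5)
            · rw [if_pos hxall]
            · split_ifs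
              · exact hB0 d'
              · exact le_rfl
        have hPβ : 0 ≤ PP β := by
          unfold PP
          exact Finset.prod_nonneg fun v _ => pow_nonneg (hβ v).le _
        have hgN : 0 < Nf K g := Nf_pos hg0
        have hFN0 : 0 < Nf K (e * f) := Nf_pos hF0
        -- the number of the points
        have hcnt : ∀ d ∈ dvs K s₃,
            (∑ x ∈ X₁, if x ∈ ((d * (s'' * g) : Ideal (𝓞 K)) : FI K) * L then B d else 0) ≤
            C₁ * ((dvs K s₃).card ^ 2 * Nf K r * Nf K (e * f) *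
              (Nf K e * Real.sqrt (Nf K s₃)) / Nf K (s₃ * s'' * k')) * PP β := by
          intro d hd
          have h3d : s₃ ≤ d := (mem_dvs h30 d).1 hd
          have hd0 : d ≠ ⊥ := fun h => h30 (le_bot_iff.1 (h ▸ h3d))
          have hdN : 1 ≤ Nf K d := one_le_Nf hd0
          have h1 := hcount K hK (d * (s'' * g)) (e * f) β
            (X₁.filter fun x => x ∈ ((d * (s'' * g) : Ideal (𝓞 K)) : FI K) * L)
            (mul_ne_zero hd0 (mul_ne_zero ht0 hg0)) hF0 hβ (by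
              intro x hx
              obtain ⟨hx1, hx2⟩ := Finset.mem_filter.1 hx
              rw [hL]
              exact ⟨hx2, (hX₁ x hx1).2⟩)
          rw [← Finset.sum_filter, Finset.sum_const, nsmul_eq_mul]
          refine (mul_le_mul_of_nonneg_right h1 (hB0 d)).trans ?_
          rw [Nf_mul d (s'' * g), Nf_mul s'' g, hNs, hB]
          beta_reduce
          obtain ⟨a3, ha3, ha3'⟩ : ∃ a, 0 < a ∧ a = Real.sqrt (Nf K s₃) := ⟨_, hsq3, rfl⟩
          obtain ⟨ad, had, had'⟩ : ∃ a, 1 ≤ a ∧ a = Real.sqrt (Nf K d) :=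
            ⟨_, Real.one_le_sqrt.2 hdN, rfl⟩
          obtain ⟨ac, hac, hac'⟩ : ∃ a, 0 < a ∧ a = Real.sqrt (Nf K c) :=
            ⟨_, Real.sqrt_pos.2 hNc, rfl⟩
          obtain ⟨ak, hak, hak'⟩ : ∃ a, 0 < a ∧ a = Real.sqrt (Nf K k') := ⟨_, hsqk, rfl⟩
          have e3 : Nf K s₃ = a3 ^ 2 := by rw [ha3', Real.sq_sqrt hN3.le]
          have ed : Nf K d = ad ^ 2 := by rw [had', Real.sq_sqrt (by linarith)]
          have ec : Nf K c = ac ^ 2 := by rw [hac', Real.sq_sqrt hNc.le]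
          have ek : Nf K k' = ak ^ 2 := by rw [hak', Real.sq_sqrt hNk.le]
          have e1 : Real.sqrt (Nf K c / Nf K k') = ac / ak := by
            rw [Real.sqrt_div hNc.le, ← hac', ← hak']
          have e2 : Real.sqrt (Nf K s₃ * Nf K d) = a3 * ad := by
            rw [Real.sqrt_mul hN3.le, ← ha3', ← had']
          have hgam : ak ≤ Nf K e * ac := by
            have h2 := (hγ i hi j hj).2
            rw [← hc, ek, ec, ← mul_pow] at h2
            exact (sq_le_sq₀ hak.le (by positivity)).1 h2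
          rw [e1, e2, ← ha3', e3, ed, ek]
          rw [ec] at hg1
          exact alg (by linarith) hFN0 hPβ hNt ha3 had hac hak hgN hNr hNe hgam hg1
        calc ∑ x ∈ X₁, ‖Ck x * (cq s₃ H3 L y₂ x * cq s'' Ht L y₂ x)‖
            ≤ ∑ x ∈ X₁, ∑ d ∈ dvs K s₃,
              if x ∈ ((d * (s'' * g) : Ideal (𝓞 K)) : FI K) * L then B d else 0 :=
              Finset.sum_le_sum hpt
          _ = ∑ d ∈ dvs K s₃, ∑ x ∈ X₁,
              if x ∈ ((d * (s'' * g) : Ideal (𝓞 K)) : FI K) * L then B d else 0 :=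
              Finset.sum_comm
          _ ≤ ∑ d ∈ dvs K s₃, C₁ * ((dvs K s₃).card ^ 2 * Nf K r * Nf K (e * f) *
              (Nf K e * Real.sqrt (Nf K s₃)) / Nf K (s₃ * s'' * k')) * PP β :=
              Finset.sum_le_sum hcnt
          _ = C₁ * ((dvs K s₃).card ^ 3 * Nf K r * Nf K (e * f) *
              (Nf K e * Real.sqrt (Nf K s₃)) / Nf K (s₃ * s'' * k')) * PP β := by
              rw [Finset.sum_const, nsmul_eq_mul]
              ring
          _ ≤ _ := by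
              have hC0 : 0 ≤ C₁ := by linarith
              have h7 : 0 ≤ Nf K (s₃ * s'' * k') := hnorm _
              gcongr
      · -- the transform
        intro X hX ν hν
        rw [hL] at hX
        rw [hNh] at hν
        have hν1 := (hu ν hν).1
        have hν3 := (hv _ (hu ν hν).2).1
        have hνt := (hv _ (hu ν hν).2).2
        rw [hkey Ck H3 Ht hg2 X hX ν hν, hg6 _ hν1, hft3 _ hν3, hftt _ hνt, mul_one]
        beta_reduce
        rw [hgi, hgj, map_mul]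
        ring

end Pool.Agent.H63.DF.CC
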