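import Pool.Agent.H23.DF.TargetsL
import Pool.Agent.H95.FW.CR

/-! `LS`: the complete sums modulo a squarefree ideal. -/

set_option autoImplicit false

open NumberField

namespace Pool.Agent.H63.DF.LS

open Pool.Agent.H23.LB (Nf)
open Pool.Agent.H23.DF
open Pool.Agent.H29.TC (LC MC AC dvs)
open Pool.Agent.H23.BG.CR (spl mc prim)
open Pool.Agent.H95.FW.CR (ac spa)

section ring

variable {R S T : Type} [CommRing R] [CommRing S] [CommRing T]

lemma key (e : T ≃+* R × S) {η : T → ℂ} (hη : MC η) (a : T) (x : R) (y : S) :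
    η (e.symm (x, y) + a) = η (e.symm (x + (e a).1, 1)) * η (e.symm (1, y + (e a).2)) := by
  rw [← spl e hη]
  congr 1
  apply e.injective
  rw [map_add, RingEquiv.apply_symm_apply, RingEquiv.apply_symm_apply]
  rfl

lemma keys (e : T ≃+* R × S) {η : T → ℂ} (hη : MC η) (a : T) (x : R) (y : S) :
    η (e.symm (x, y) - a) = η (e.symm (x - (e a).1, 1)) * η (e.symm (1, y - (e a).2)) := by
  rw [sub_eq_add_neg, key e hη, map_neg, Prod.fst_neg, Prod.snd_neg, ← sub_eq_add_neg,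
    ← sub_eq_add_neg]

lemma psum [Fintype R] [Fintype S] [Fintype T] (e : T ≃+* R × S) (f : T → ℂ) (f₁ : R → ℂ)
    (f₂ : S → ℂ) (h : ∀ x y, f (e.symm (x, y)) = f₁ x * f₂ y) :
    ∑ Y, f Y = (∑ x, f₁ x) * ∑ y, f₂ y := by
  rw [← Equiv.sum_comp e.symm.toEquiv, Fintype.sum_prod_type, Finset.sum_mul_sum]
  refine Finset.sum_congr rfl fun x _ => Finset.sum_congr rfl fun y _ => ?_
  exact h x y

lemma nle {η : R → ℂ} (hη : MC η) (x : R) : ‖η x‖ ≤ 1 := by
  by_cases h : IsUnit x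
  · exact (hη.unit x h).le
  · rw [hη.zero x h, norm_zero]
    exact zero_le_one

/-- first sum -/
lemma s1 [Fintype R] [Fintype S] [Fintype T] (e : T ≃+* R × S) {η : T → ℂ} (hη : MC η)
    {θ : T → ℂ} (hθ : AC θ) (π : T) :
    ∑ Y, η (Y + π) * (starRingEnd ℂ) (η (Y - π)) * θ Y =
      (∑ x : R, η (e.symm (x + (e π).1, 1)) * (starRingEnd ℂ) (η (e.symm (x - (e π).1, 1))) *
        θ (e.symm (x, 0))) *
      ∑ y : S, η (e.symm (1, y + (e π).2)) * (starRingEnd ℂ) (η (e.symm (1, y - (e π).2))) *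
        θ (e.symm (0, y)) := by
  refine psum e _ _ _ fun x y => ?_
  rw [key e hη, keys e hη, spa e hθ x y, map_mul]
  ring

/-- second sum -/
lemma s2 [Fintype R] [Fintype S] [Fintype T] (e : T ≃+* R × S) {η : T → ℂ} (hη : MC η)
    (π : T) :
    ∑ Y, η (Y + π) * (starRingEnd ℂ) (η (Y - π)) =
      (∑ x : R, η (e.symm (x + (e π).1, 1)) * (starRingEnd ℂ) (η (e.symm (x - (e π).1, 1)))) *
      ∑ y : S, η (e.symm (1, y + (e π).2)) * (starRingEnd ℂ) (η (e.symm (1, y - (e π).2))) := by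
  refine psum e _ _ _ fun x y => ?_
  rw [key e hη, keys e hη, map_mul]
  ring

/-- third sum -/
lemma s3 [Fintype R] [Fintype S] [Fintype T] (e : T ≃+* R × S) {η η' : T → ℂ} (hη : MC η)
    (hη' : MC η') (π z : T) :
    ∑ Y, η (Y + z + π) * (starRingEnd ℂ) (η (Y + z - π)) *
      (starRingEnd ℂ) (η' (Y + π) * (starRingEnd ℂ) (η' (Y - π))) =
      (∑ x : R, η (e.symm (x + (e z).1 + (e π).1, 1)) *
        (starRingEnd ℂ) (η (e.symm (x + (e z).1 - (e π).1, 1))) *
        (starRingEnd ℂ) (η' (e.symm (x + (e π).1, 1)) *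
          (starRingEnd ℂ) (η' (e.symm (x - (e π).1, 1))))) *
      ∑ y : S, η (e.symm (1, y + (e z).2 + (e π).2)) *
        (starRingEnd ℂ) (η (e.symm (1, y + (e z).2 - (e π).2))) *
        (starRingEnd ℂ) (η' (e.symm (1, y + (e π).2)) *
          (starRingEnd ℂ) (η' (e.symm (1, y - (e π).2)))) := by
  refine psum e _ _ _ fun x y => ?_
  have h1 : e.symm (x, y) + z = e.symm (x + (e z).1, y + (e z).2) := by
    apply e.injective
    rw [map_add, RingEquiv.apply_symm_apply, RingEquiv.apply_symm_apply]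
    rfl
  rw [h1, key e hη, keys e hη, key e hη', keys e hη']
  simp only [map_mul]
  ring

/-- fourth sum -/
lemma s4 [Fintype R] [Fintype S] [Fintype T] (e : T ≃+* R × S) {η η' : T → ℂ} (hη : MC η)
    (hη' : MC η') (π : T) :
    ∑ Y, η (Y + π) * (starRingEnd ℂ) (η (Y - π)) *
      (starRingEnd ℂ) (η' (Y + π) * (starRingEnd ℂ) (η' (Y - π))) =
      (∑ x : R, η (e.symm (x + (e π).1, 1)) *
        (starRingEnd ℂ) (η (e.symm (x - (e π).1, 1))) *
        (starRingEnd ℂ) (η' (e.symm (x + (e π).1, 1)) *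
          (starRingEnd ℂ) (η' (e.symm (x - (e π).1, 1))))) *
      ∑ y : S, η (e.symm (1, y + (e π).2)) *
        (starRingEnd ℂ) (η (e.symm (1, y - (e π).2))) *
        (starRingEnd ℂ) (η' (e.symm (1, y + (e π).2)) *
          (starRingEnd ℂ) (η' (e.symm (1, y - (e π).2)))) := by
  refine psum e _ _ _ fun x y => ?_
  rw [key e hη, keys e hη, key e hη', keys e hη']
  simp only [map_mul]
  ring

lemma tri4 [Fintype R] {η η' : R → ℂ} (hη : MC η) (hη' : MC η') (a b c d : R → R) :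
    ‖∑ Y, η (a Y) * (starRingEnd ℂ) (η (b Y)) *
      (starRingEnd ℂ) (η' (c Y) * (starRingEnd ℂ) (η' (d Y)))‖ ≤ Fintype.card R := by
  refine (norm_sum_le _ _).trans ?_
  rw [← nsmul_one, ← Finset.card_univ, ← Finset.sum_const]
  refine Finset.sum_le_sum fun Y _ => ?_
  rw [norm_mul, norm_mul, RCLike.norm_conj, RCLike.norm_conj, norm_mul, RCLike.norm_conj]
  have h1 := nle hη (a Y)
  have h2 := nle hη (b Y)
  have h3 := nle hη' (c Y)
  have h4 := nle hη' (d Y)
  calc ‖η (a Y)‖ * ‖η (b Y)‖ * (‖η' (c Y)‖ * ‖η' (d Y)‖) ≤ 1 * 1 * (1 * 1) := by gcongr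
    _ = 1 := by norm_num

lemma tri3 [Fintype R] {η θ : R → ℂ} (hη : MC η) (hθ : ∀ x, ‖θ x‖ ≤ 1) (a b : R → R) :
    ‖∑ Y, η (a Y) * (starRingEnd ℂ) (η (b Y)) * θ Y‖ ≤ Fintype.card R := by
  refine (norm_sum_le _ _).trans ?_
  rw [← nsmul_one, ← Finset.card_univ, ← Finset.sum_const]
  refine Finset.sum_le_sum fun Y _ => ?_
  rw [norm_mul, norm_mul, RCLike.norm_conj]
  have h1 := nle hη (a Y)
  have h2 := nle hη (b Y)
  calc ‖η (a Y)‖ * ‖η (b Y)‖ * ‖θ Y‖ ≤ 1 * 1 * 1 := by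
        have := hθ Y
        gcongr
    _ = 1 := by norm_num

end ring

section ideals

variable {K : Type} [Field K] [NumberField K]

lemma fin_le {k : Ideal (𝓞 K)} (hk : k ≠ ⊥) : {e : Ideal (𝓞 K) | k ≤ e}.Finite := by
  have h1 : Fintype {x : Ideal (𝓞 K) // x ∣ k} := UniqueFactorizationMonoid.fintypeSubtypeDvd k hk
  have h3 : Finite {x : Ideal (𝓞 K) // x ∣ k} := Finite.of_fintype _
  refine Set.finite_coe_iff.1 (Finite.of_injective
    (β := {x : Ideal (𝓞 K) // x ∣ k}) (fun e => ⟨e.1, Ideal.dvd_iff_le.2 e.2⟩) ?_)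
  intro a b hab
  exact Subtype.ext (congrArg (fun z : {x : Ideal (𝓞 K) // x ∣ k} => (z : Ideal (𝓞 K))) hab)

lemma mem_dvs {k : Ideal (𝓞 K)} (hk : k ≠ ⊥) (e : Ideal (𝓞 K)) : e ∈ dvs K k ↔ k ≤ e := by
  unfold dvs
  rw [dif_pos (fin_le hk), Set.Finite.mem_toFinset]
  rfl

lemma card_pos {k : Ideal (𝓞 K)} (hk : k ≠ ⊥) : (1 : ℝ) ≤ (dvs K k).card := by
  have h : 0 < (dvs K k).card := Finset.card_pos.2 ⟨k, (mem_dvs hk k).2 le_rfl⟩
  exact_mod_cast h

lemma card_two {P s : Ideal (𝓞 K)} (hP : P ≠ ⊥) (hP1 : P ≠ ⊤) (hs : s ≠ ⊥) (hPs : P ⊔ s = ⊤) :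
    2 * (dvs K s).card ≤ (dvs K (P * s)).card := by
  classical
  have hPs0 : P * s ≠ ⊥ := mul_ne_zero hP hs
  have hinj : Function.Injective (fun e : Ideal (𝓞 K) => P * e) := by
    intro a b hab
    exact mul_left_cancel₀ hP hab
  have h1 : Disjoint (dvs K s) ((dvs K s).image fun e => P * e) := by
    rw [Finset.disjoint_left]
    intro e he he'
    rw [Finset.mem_image] at he'
    obtain ⟨c, hc, hce⟩ := he'
    rw [mem_dvs hs] at he
    apply hP1
    rw [← top_le_iff, ← hPs]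
    refine sup_le le_rfl (he.trans ?_)
    rw [← hce]
    exact Ideal.mul_le_left
  have h2 : (dvs K s) ∪ ((dvs K s).image fun e => P * e) ⊆ dvs K (P * s) := by
    intro e he
    rw [Finset.mem_union, Finset.mem_image] at he
    rw [mem_dvs hPs0]
    rcases he with he | ⟨c, hc, hce⟩
    · rw [mem_dvs hs] at he
      exact Ideal.mul_le_right.trans he
    · rw [mem_dvs hs] at hc
      rw [← hce]
      exact Ideal.mul_mono_right hc
  have h3 := Finset.card_le_card h2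
  rw [Finset.card_union_of_disjoint h1, Finset.card_image_of_injective _ hinj] at h3
  omega

lemma Nf_mul (a b : Ideal (𝓞 K)) : Nf K (a * b) = Nf K a * Nf K b := by
  unfold Nf
  rw [map_mul]
  push_cast
  rfl

lemma Nf_pos {a : Ideal (𝓞 K)} (ha : a ≠ ⊥) : 0 < Nf K a := by
  unfold Nf
  have h : 0 < Ideal.absNorm a := by
    apply Nat.pos_of_ne_zero
    intro h0
    exact ha (Ideal.absNorm_eq_zero_iff.1 h0)
  exact_mod_cast h

lemma Nf_top : Nf K (⊤ : Ideal (𝓞 K)) = 1 := by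
  unfold Nf
  rw [Ideal.absNorm_top]
  norm_num

lemma Nf_sup {P s : Ideal (𝓞 K)} (hP : P ≠ ⊥) (hs : s ≠ ⊥) (hPs : P ⊔ s = ⊤) (x : 𝓞 K) :
    Nf K (P ⊔ Ideal.span {x}) * Nf K (s ⊔ Ideal.span {x}) ≤ Nf K (P * s ⊔ Ideal.span {x}) := by
  have h1 : (P ⊔ Ideal.span {x}) ⊔ (s ⊔ Ideal.span {x}) = ⊤ := by
    rw [← top_le_iff, ← hPs]
    exact sup_le (le_sup_left.trans le_sup_left) (le_sup_left.trans le_sup_right)
  have h2 : (P ⊔ Ideal.span {x}) ⊓ (s ⊔ Ideal.span {x}) =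
      (P ⊔ Ideal.span {x}) * (s ⊔ Ideal.span {x}) :=
    (Ideal.mul_eq_inf_of_isCoprime (Ideal.isCoprime_iff_sup_eq.2 h1)).symm
  have h3 : P * s ⊔ Ideal.span {x} ≤ (P ⊔ Ideal.span {x}) * (s ⊔ Ideal.span {x}) := by
    rw [← h2]
    exact le_inf (sup_le_sup_right Ideal.mul_le_left _) (sup_le_sup_right Ideal.mul_le_right _)
  rw [← Nf_mul]
  have h4 := Ideal.absNorm_dvd_absNorm_of_le h3
  have h5 : P * s ⊔ Ideal.span {x} ≠ ⊥ := fun h =>
    mul_ne_zero hP hs (le_bot_iff.1 (h ▸ le_sup_left))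
  have h6 : 0 < Ideal.absNorm (P * s ⊔ Ideal.span {x}) := by
    apply Nat.pos_of_ne_zero
    intro h0
    exact h5 (Ideal.absNorm_eq_zero_iff.1 h0)
  unfold Nf
  exact_mod_cast Nat.le_of_dvd h6 h4

lemma card_Nf (P : Ideal (𝓞 K)) [Fintype (𝓞 K ⧸ P)] : (Fintype.card (𝓞 K ⧸ P) : ℝ) = Nf K P := by
  unfold Nf
  rw [Ideal.absNorm_apply, Submodule.cardQuot_apply, Nat.card_eq_fintype_card]

/-- the statement for one ideal -/
def St (s : Ideal (𝓞 K)) : Prop := s ≠ ⊥ → s.radical = s →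
    Ideal.span {(2 : 𝓞 K)} ⊔ s = ⊤ → ∀ [Fintype (𝓞 K ⧸ s)] (η η' : 𝓞 K ⧸ s → ℂ)
    (π : 𝓞 K ⧸ s), LC s η → LC s η' → IsUnit π →
    (∀ θ : 𝓞 K ⧸ s → ℂ, AC θ →
      ‖∑ Y, η (Y + π) * (starRingEnd ℂ) (η (Y - π)) * θ Y‖ ≤
        (dvs K s).card * Real.sqrt (Nf K s)) ∧
    ‖∑ Y, η (Y + π) * (starRingEnd ℂ) (η (Y - π))‖ ≤ 1 ∧
    (∀ x : 𝓞 K, ‖∑ Y, η (Y + Ideal.Quotient.mk s x + π) *
      (starRingEnd ℂ) (η (Y + Ideal.Quotient.mk s x - π)) *
      (starRingEnd ℂ) (η' (Y + π) * (starRingEnd ℂ) (η' (Y - π)))‖ ≤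
        (dvs K s).card ^ 2 * Real.sqrt (Nf K s * Nf K (s ⊔ Ideal.span {x}))) ∧
    ∀ γ : 𝓞 K, (∀ P κ' : Ideal (𝓞 K), P.IsPrime → s = κ' * P →
      (γ ∈ P ↔ ∀ t ∈ κ', η (Ideal.Quotient.mk s (1 + t)) = η' (Ideal.Quotient.mk s (1 + t)))) →
      ‖∑ Y, η (Y + π) * (starRingEnd ℂ) (η (Y - π)) *
        (starRingEnd ℂ) (η' (Y + π) * (starRingEnd ℂ) (η' (Y - π)))‖ ≤
          Nf K (s ⊔ Ideal.span {γ})

lemma St_top : St (⊤ : Ideal (𝓞 K)) := by
  intro h0 _ _ _ η η' π hη hη' _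
  have hc : (Fintype.card (𝓞 K ⧸ (⊤ : Ideal (𝓞 K))) : ℝ) = 1 := by
    rw [card_Nf, Nf_top]
  have h1 := card_pos h0
  refine ⟨?_, ?_, ?_, ?_⟩
  · intro θ hθ
    refine (tri3 hη.mc (fun x => (hθ.norm x).le) _ _).trans ?_
    rw [hc, Nf_top, Real.sqrt_one, mul_one]
    exact h1
  · have h2 := tri3 hη.mc (θ := fun _ => (1 : ℂ)) (fun x => by simp) (fun Y => Y + π)
      (fun Y => Y - π)
    rw [hc] at h2
    simpa only [mul_one] using h2
  · intro x
    refine (tri4 hη.mc hη'.mc _ _ _ _).trans ?_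
    rw [hc, Nf_top, top_sup_eq, Nf_top, mul_one, Real.sqrt_one, mul_one]
    exact one_le_pow₀ h1
  · intro γ _
    refine (tri4 hη.mc hη'.mc _ _ _ _).trans ?_
    rw [hc, top_sup_eq, Nf_top]

lemma St_mul (hLP : F_LP) (P s : Ideal (𝓞 K)) (hPp : P.IsPrime) (hP0 : P ≠ ⊥) (ih : St s) :
    St (P * s) := by
  intro hPs0 hrad h2 _ η η' π hη hη' hπ
  have hs0 : s ≠ ⊥ := fun h => hPs0 (by rw [h, Ideal.mul_bot])
  have hPm : P.IsMaximal := hPp.isMaximal hP0
  have hPt : P ≠ ⊤ := hPm.ne_top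
  have hco : P ⊔ s = ⊤ := by
    by_contra h
    have h1 : s ≤ P := by
      have h3 : P = P ⊔ s := hPm.eq_of_le h le_sup_left
      rw [h3]
      exact le_sup_right
    have h3 : P * s = s := by
      apply le_antisymm Ideal.mul_le_right
      rw [← hrad, Ideal.radical_mul, hPp.radical]
      exact le_inf h1 Ideal.le_radical
    have h4 : P = 1 := by
      apply mul_right_cancel₀ hs0
      rw [h3, one_mul]
    exact hPt (by rw [h4, Ideal.one_eq_top])
  have hcop : IsCoprime P s := Ideal.isCoprime_iff_sup_eq.2 hco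
  obtain ⟨p, hp, q, hq, hpq⟩ := Submodule.mem_sup.1 (hco ▸ Submodule.mem_top : (1 : 𝓞 K) ∈ P ⊔ s)
  have hinf : P ⊓ s = P * s := (Ideal.mul_eq_inf_of_isCoprime hcop).symm
  have hrs : s.radical = s := by
    apply le_antisymm _ Ideal.le_radical
    intro x hx
    have h1 : x = p * x + q * x := by rw [← add_mul, hpq, one_mul]
    rw [h1]
    refine s.add_mem ?_ (Ideal.mul_mem_right _ _ hq)
    have h3 : p * x ∈ (P * s).radical := by
      rw [Ideal.radical_mul, hPp.radical]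
      exact ⟨Ideal.mul_mem_right _ _ hp, Ideal.mul_mem_left _ _ hx⟩
    rw [hrad] at h3
    exact Ideal.mul_le_right h3
  have h2s : Ideal.span {(2 : 𝓞 K)} ⊔ s = ⊤ := by
    rw [← top_le_iff, ← h2]
    exact sup_le_sup_left Ideal.mul_le_right _
  have h2P : (2 : 𝓞 K) ∉ P := by
    intro h
    apply hPt
    rw [← top_le_iff, ← h2]
    exact sup_le ((Ideal.span_singleton_le_iff_mem _).2 h) Ideal.mul_le_left
  have hFP : Finite (𝓞 K ⧸ P) := Ideal.finiteQuotientOfFreeOfNeBot P hP0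
  have hFs : Finite (𝓞 K ⧸ s) := Ideal.finiteQuotientOfFreeOfNeBot s hs0
  let _ : Fintype (𝓞 K ⧸ P) := Fintype.ofFinite _
  let _ : Fintype (𝓞 K ⧸ s) := Fintype.ofFinite _
  let e := Ideal.quotientMulEquivQuotientProd P s hcop
  have he : ∀ x : 𝓞 K, e (Ideal.Quotient.mk (P * s) x) =
      (Ideal.Quotient.mk P x, Ideal.Quotient.mk s x) := by
    intro x
    refine Prod.ext ?_ ?_
    · rw [Ideal.quotientMulEquivQuotientProd_fst]; rfl
    · rw [Ideal.quotientMulEquivQuotientProd_snd]; rfl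
  have he' : ∀ x : 𝓞 K, e.symm (Ideal.Quotient.mk P x, Ideal.Quotient.mk s x) =
      Ideal.Quotient.mk (P * s) x := by
    intro x
    rw [← he, RingEquiv.symm_apply_apply]
  let e2 : (𝓞 K ⧸ P * s) ≃+* (𝓞 K ⧸ s) × (𝓞 K ⧸ P) := e.trans RingEquiv.prodComm
  have hL1 : ∀ {η : 𝓞 K ⧸ (P * s) → ℂ}, LC (P * s) η → LC P (fun x => η (e.symm (x, 1))) :=
    fun h => ⟨mc e h.mc, fun w hw => prim e h.prim w hw⟩
  have hL2 : ∀ {η : 𝓞 K ⧸ (P * s) → ℂ}, LC (P * s) η → LC s (fun x => η (e.symm (1, x))) :=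
    fun h => ⟨mc e2 h.mc, fun w hw => prim e2 h.prim w hw⟩
  have hu : IsUnit (e π) := hπ.map e
  rw [Prod.isUnit_iff] at hu
  have hPs1 : Nontrivial (𝓞 K ⧸ P) := Ideal.Quotient.nontrivial_iff.2 hPt
  obtain ⟨A1, A2, A3, A4⟩ := hLP K P hPp hP0 h2P (fun x => η (e.symm (x, 1)))
    (fun x => η' (e.symm (x, 1))) (e π).1 (hL1 hη) (hL1 hη') hu.1.ne_zero
  obtain ⟨B1, B2, B3, B4⟩ := ih hs0 hrs h2s (fun x => η (e.symm (1, x)))
    (fun x => η' (e.symm (1, x))) (e π).2 (hL2 hη) (hL2 hη') hu.2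
  have hcard : 2 * ((dvs K s).card : ℝ) ≤ (dvs K (P * s)).card := by
    exact_mod_cast card_two hP0 hPt hs0 hco
  have hcs := card_pos hs0
  have hNP := Nf_pos hP0
  have hNs := Nf_pos hs0
  refine ⟨?_, ?_, ?_, ?_⟩
  · intro θ hθ
    rw [s1 e hη.mc hθ, norm_mul]
    have hθ2 : AC (fun y : 𝓞 K ⧸ s => θ (e.symm (0, y))) := ac e2 hθ
    have h3 := A1 _ (ac e hθ)
    have h4 := B1 _ hθ2
    calc _ ≤ (2 * Real.sqrt (Nf K P)) * ((dvs K s).card * Real.sqrt (Nf K s)) := by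
          exact mul_le_mul h3 h4 (norm_nonneg _) (by positivity)
      _ = (2 * ((dvs K s).card : ℝ)) * Real.sqrt (Nf K (P * s)) := by
          rw [Nf_mul, Real.sqrt_mul hNP.le]
          ring
      _ ≤ _ := mul_le_mul_of_nonneg_right hcard (Real.sqrt_nonneg _)
  · rw [s2 e hη.mc, norm_mul]
    exact mul_le_one₀ A2 (norm_nonneg _) B2
  · intro x
    rw [s3 e hη.mc hη'.mc, norm_mul, he]
    have h4 := B3 x
    have h5 : ‖∑ x_1 : 𝓞 K ⧸ P, η (e.symm (x_1 + Ideal.Quotient.mk P x + (e π).1, 1)) *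
        (starRingEnd ℂ) (η (e.symm (x_1 + Ideal.Quotient.mk P x - (e π).1, 1))) *
        (starRingEnd ℂ) (η' (e.symm (x_1 + (e π).1, 1)) *
          (starRingEnd ℂ) (η' (e.symm (x_1 - (e π).1, 1))))‖ ≤
        2 ^ 2 * Real.sqrt (Nf K P * Nf K (P ⊔ Ideal.span {x})) := by
      by_cases hx : x ∈ P
      · have h6 : P ⊔ Ideal.span {x} = P := by
          rw [sup_eq_left]
          exact (Ideal.span_singleton_le_iff_mem _).2 hx
        rw [h6, Real.sqrt_mul_self hNP.le]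
        refine (tri4 (hL1 hη).mc (hL1 hη').mc _ _ _ _).trans ?_
        rw [card_Nf]
        linarith
      · have h6 : P ⊔ Ideal.span {x} = ⊤ := by
          by_contra h
          have h7 : P = P ⊔ Ideal.span {x} := hPm.eq_of_le h le_sup_left
          apply hx
          rw [h7]
          exact Ideal.mem_sup_right (Ideal.mem_span_singleton_self x)
        rw [h6, Nf_top, mul_one]
        refine (A3 (Ideal.Quotient.mk P x) ?_).trans ?_
        · rw [Ne, Ideal.Quotient.eq_zero_iff_mem]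
          exact hx
        · have := Real.sqrt_nonneg (Nf K P)
          linarith
    have hPx : 0 ≤ Nf K (P ⊔ Ideal.span {x}) := by unfold Nf; positivity
    have hsx : 0 ≤ Nf K (s ⊔ Ideal.span {x}) := by unfold Nf; positivity
    calc _ ≤ (2 ^ 2 * Real.sqrt (Nf K P * Nf K (P ⊔ Ideal.span {x}))) *
          ((dvs K s).card ^ 2 * Real.sqrt (Nf K s * Nf K (s ⊔ Ideal.span {x}))) :=
          mul_le_mul h5 h4 (norm_nonneg _) (by positivity)
      _ = (2 * ((dvs K s).card : ℝ)) ^ 2 * Real.sqrt (Nf K (P * s) *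
          (Nf K (P ⊔ Ideal.span {x}) * Nf K (s ⊔ Ideal.span {x}))) := by
          rw [Nf_mul, show Nf K P * Nf K s *
            (Nf K (P ⊔ Ideal.span {x}) * Nf K (s ⊔ Ideal.span {x})) =
            (Nf K P * Nf K (P ⊔ Ideal.span {x})) * (Nf K s * Nf K (s ⊔ Ideal.span {x})) by ring,
            Real.sqrt_mul (by positivity : 0 ≤ Nf K P * Nf K (P ⊔ Ideal.span {x}))]
          ring
      _ ≤ (dvs K (P * s)).card ^ 2 * Real.sqrt (Nf K (P * s) *
          Nf K (P * s ⊔ Ideal.span {x})) := by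
          have h7 := Nf_sup hP0 hs0 hco x
          have h8 : 0 ≤ Nf K (P * s) := by unfold Nf; positivity
          refine mul_le_mul (pow_le_pow_left₀ (by positivity) hcard 2)
            (Real.sqrt_le_sqrt (mul_le_mul_of_nonneg_left h7 h8)) (Real.sqrt_nonneg _)
            (by positivity)
  · intro γ hγ
    rw [s4 e hη.mc hη'.mc, norm_mul]
    refine le_trans ?_ (Nf_sup hP0 hs0 hco γ)
    have hev : ∀ t : 𝓞 K, t ∈ s → ∀ η₀ : 𝓞 K ⧸ (P * s) → ℂ,
        η₀ (Ideal.Quotient.mk (P * s) (1 + t)) =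
          η₀ (e.symm (Ideal.Quotient.mk P (1 + t), 1)) := by
      intro t ht η₀
      congr 1
      apply e.injective
      rw [RingEquiv.apply_symm_apply, he]
      refine Prod.ext rfl ?_
      change Ideal.Quotient.mk s (1 + t) = 1
      rw [← map_one (Ideal.Quotient.mk s), Ideal.Quotient.eq]
      simpa using ht
    have hev2 : ∀ t : 𝓞 K, t ∈ P → ∀ η₀ : 𝓞 K ⧸ (P * s) → ℂ,
        η₀ (Ideal.Quotient.mk (P * s) (1 + t)) =
          η₀ (e.symm (1, Ideal.Quotient.mk s (1 + t))) := by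
      intro t ht η₀
      congr 1
      apply e.injective
      rw [RingEquiv.apply_symm_apply, he]
      refine Prod.ext ?_ rfl
      change Ideal.Quotient.mk P (1 + t) = 1
      rw [← map_one (Ideal.Quotient.mk P), Ideal.Quotient.eq]
      simpa using ht
    refine mul_le_mul ?_ ?_ (norm_nonneg _) (by unfold Nf; positivity)
    · by_cases hx : γ ∈ P
      · have h6 : P ⊔ Ideal.span {γ} = P := by
          rw [sup_eq_left]
          exact (Ideal.span_singleton_le_iff_mem _).2 hx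
        rw [h6]
        refine (tri4 (hL1 hη).mc (hL1 hη').mc _ _ _ _).trans ?_
        rw [card_Nf]
      · have h6 : P ⊔ Ideal.span {γ} = ⊤ := by
          by_contra h
          have h7 : P = P ⊔ Ideal.span {γ} := hPm.eq_of_le h le_sup_left
          apply hx
          rw [h7]
          exact Ideal.mem_sup_right (Ideal.mem_span_singleton_self γ)
        rw [h6, Nf_top]
        apply A4
        intro heq
        apply hx
        rw [hγ P s hPp (mul_comm P s)]
        intro t ht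
        rw [hev t ht η, hev t ht η']
        exact congrFun heq _
    · apply B4
      intro P' κ' hP' hs
      rw [hγ P' (P * κ') hP' (by rw [hs, mul_assoc])]
      constructor
      · intro h t ht
        have h3 : p * t ∈ P * κ' := Ideal.mul_mem_mul hp ht
        have h4 : Ideal.Quotient.mk s (1 + p * t) = Ideal.Quotient.mk s (1 + t) := by
          rw [Ideal.Quotient.eq]
          have h5 : 1 + p * t - (1 + t) = - (q * t) := by
            have h6 : t = p * t + q * t := by rw [← add_mul, hpq, one_mul]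
            linear_combination (-1 : 𝓞 K) * h6
          rw [h5]
          exact s.neg_mem (Ideal.mul_mem_right _ _ hq)
        have h5 := h (p * t) h3
        rw [hev2 _ (Ideal.mul_le_left h3) η, hev2 _ (Ideal.mul_le_left h3) η', h4] at h5
        exact h5
      · intro h t ht
        have h3 : t ∈ P := Ideal.mul_le_left ht
        have h4 : t ∈ κ' := Ideal.mul_le_right ht
        rw [hev2 t h3 η, hev2 t h3 η']
        exact h t h4

end ideals

theorem pf_LS (hLP : F_LP) (_hSX : F_SX) : F_LS := by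
  intro K _ _ s
  have h : St s := by
    induction s using UniqueFactorizationMonoid.induction_on_prime with
    | h₁ => intro h; exact absurd rfl h
    | h₂ x hx =>
      rw [Ideal.isUnit_iff] at hx
      rw [hx]
      exact St_top
    | h₃ a p ha hp ih =>
      exact St_mul hLP p a (Ideal.isPrime_of_prime hp) hp.ne_zero ih
  exact h

end Pool.Agent.H63.DF.LS
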