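import Pool.Agent.H89.DF.TargetsB

set_option autoImplicit false

open MeasureTheory Set Filter
open scoped Real Matrix MatrixGroups
open Pool.Agent.H31.CN Pool.Agent.H89.FM Pool.Agent.H89.FC Pool.Agent.H89.DF

namespace Pool.Agent.H63.DF

theorem pf_GRD : T_GRD := by
  intro h P hP hc
  obtain ⟨n, hn1, hnP⟩ : ∃ n : ℕ, 1 ≤ n ∧ P ≤ n :=
    ⟨max 1 ⌈P⌉₊, le_max_left _ _, le_trans (Nat.le_ceil P) (by exact_mod_cast le_max_right _ _)⟩
  have hn0 : (0 : ℝ) < n := by exact_mod_cast hn1
  have hw : 0 < P / n := div_pos hP hn0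
  have hmax : ∀ j : ℕ, j < n → ∃ t ∈ Icc ((j : ℝ) * (P / n)) (((j : ℝ) + 1) * (P / n)),
      ∀ s ∈ Icc ((j : ℝ) * (P / n)) (((j : ℝ) + 1) * (P / n)), h s ≤ h t := by
    intro j hj
    have hsub : Icc ((j : ℝ) * (P / n)) (((j : ℝ) + 1) * (P / n)) ⊆ Icc 0 P := by
      intro s hs
      refine ⟨le_trans (by positivity) hs.1, le_trans hs.2 ?_⟩
      have h1 : ((j : ℝ) + 1) ≤ n := by exact_mod_cast hj
      calc ((j : ℝ) + 1) * (P / n) ≤ n * (P / n) := by gcongr
        _ = P := by field_simp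
    have hne : (Icc ((j : ℝ) * (P / n)) (((j : ℝ) + 1) * (P / n))).Nonempty :=
      ⟨(j : ℝ) * (P / n), le_refl _, by nlinarith⟩
    obtain ⟨t, ht, hm⟩ := isCompact_Icc.exists_isMaxOn hne (hc.mono hsub)
    exact ⟨t, ht, fun s hs => hm hs⟩
  choose! t ht hm using hmax
  refine ⟨n, t, hn1, (div_le_one hn0).2 hnP, fun j hj => ⟨(ht j hj).1, (ht j hj).2⟩, ?_⟩
  have hint : ∀ k < n, IntervalIntegrable h volume ((k : ℝ) * (P / n))
      (((k + 1 : ℕ) : ℝ) * (P / n)) := by
    intro k hk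
    apply ContinuousOn.intervalIntegrable
    apply hc.mono
    have h1 : ((k : ℝ) + 1) ≤ n := by exact_mod_cast hk
    rw [uIcc_of_le (by push_cast; nlinarith)]
    intro s hs
    refine ⟨le_trans (by positivity) hs.1, le_trans hs.2 ?_⟩
    push_cast
    calc ((k : ℝ) + 1) * (P / n) ≤ n * (P / n) := by gcongr
      _ = P := by field_simp
  have hsum := intervalIntegral.sum_integral_adjacent_intervals
    (a := fun k : ℕ => (k : ℝ) * (P / n)) (n := n) (f := h) (μ := volume) hint
  have e0 : ((0 : ℕ) : ℝ) * (P / n) = 0 := by simp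
  have en : (n : ℝ) * (P / n) = P := by field_simp
  simp only [e0, en] at hsum
  rw [← hsum]
  refine Finset.sum_le_sum fun k hk => ?_
  have hk' := Finset.mem_range.1 hk
  have hle : (k : ℝ) * (P / n) ≤ ((k + 1 : ℕ) : ℝ) * (P / n) := by push_cast; nlinarith
  calc ∫ x in ((k : ℝ) * (P / n))..(((k + 1 : ℕ) : ℝ) * (P / n)), h x
      ≤ ∫ x in ((k : ℝ) * (P / n))..(((k + 1 : ℕ) : ℝ) * (P / n)), h (t k) := by
        refine intervalIntegral.integral_mono_on hle (hint k hk') intervalIntegrable_const ?_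
        intro x hx
        refine hm k hk' x ⟨hx.1, ?_⟩
        have := hx.2
        push_cast at this
        exact this
    _ = P / n * h (t k) := by
        rw [intervalIntegral.integral_const, smul_eq_mul]
        push_cast
        ring

end Pool.Agent.H63.DF
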