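import Pool.Agent.H23.DF.TargetsL
import Pool.Agent.H48.RC.CN
import Pool.Agent.H52.SX.FD
import Pool.Agent.H16.SWX.CD

/-!
# Row CC, part a: transforms on lattices and sums over quotient rings
-/

set_option autoImplicit false

open NumberField Complex
open scoped nonZeroDivisors

namespace Pool.Agent.H63.DF.CC

open Pool.Agent.H25.HK Pool.Agent.H23.LB Pool.Agent.H23.LC
open Pool.Agent.H28.RC (Rep ft idl)
open Pool.Agent.H29.TC (Gn LC cq dvs AC MC)
open Pool.Agent.H31.SX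
open Pool.Agent.H23.DM (Mz PhZ)
open Pool.Agent.H16.SWX (coord)
open Pool.Agent.H81.THC (fi_mono fi_le)
open Pool.Agent.H52.SX (mem_add mem_sub mem_neg mem_zero mem_smul ca_norm ca_mul_conj
  mem_iff_coord ca_comm)

variable {K : Type} [Field K] [NumberField K]

theorem ca_add' (x y ν : K) : ca K (x + y) ν = ca K x ν * ca K y ν := by
  rw [ca_comm, Pool.Agent.H52.SX.ca_add, ca_comm ν x, ca_comm ν y]

theorem ca_du {N : FI K} (hN : N ≠ 0) {x ν : K} (hx : x ∈ N) (hν : ν ∈ du K N) :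
    ca K x ν = 1 := by
  have h1 := (Pool.Agent.H48.RC.mem_du_iff hN ν).1 hν x hx
  exact h1

theorem ft_congr {X : Finset K} {c c' : K → ℂ} {ν : K} (h : ∀ x ∈ X, c x = c' x) :
    ft K X c ν = ft K X c' ν := by
  unfold ft
  refine Finset.sum_congr rfl fun x hx => ?_
  rw [h x hx]

theorem du_mono {M N : FI K} (hM : M ≠ 0) (hN : N ≠ 0) (h : ∀ x ∈ M, x ∈ N) {ν : K}
    (hν : ν ∈ du K N) : ν ∈ du K M := by
  rw [Pool.Agent.H48.RC.mem_du_iff hM]
  intro a ha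
  exact (Pool.Agent.H48.RC.mem_du_iff hN ν).1 hν a (h a ha)

/-- the additive character of the quotient which belongs to a point of the dual lattice -/
noncomputable def tq (b : Ideal (𝓞 K)) (y₂ ν : K) (Y : 𝓞 K ⧸ b) : ℂ :=
  ca K (((Ideal.Quotient.mk_surjective Y).choose : K) * y₂) ν

theorem tq_mk {b : Ideal (𝓞 K)} {L : FI K} {y₂ ν : K} (hb : b ≠ ⊥) (hL : L ≠ 0) (hy : y₂ ∈ L)
    (hν : ν ∈ du K ((b : FI K) * L)) (a : 𝓞 K) :
    tq b y₂ ν (Ideal.Quotient.mk b a) = ca K ((a : K) * y₂) ν := by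
  unfold tq
  have h1 := (Ideal.Quotient.mk_surjective (Ideal.Quotient.mk b a)).choose_spec
  generalize (Ideal.Quotient.mk_surjective (Ideal.Quotient.mk b a)).choose = c at h1 ⊢
  rw [Ideal.Quotient.mk_eq_mk_iff_sub_mem] at h1
  have h2 : (c : K) * y₂ = (a : K) * y₂ + ((c - a : 𝓞 K) : K) * y₂ := by push_cast; ring
  have hbL : (b : FI K) * L ≠ 0 := mul_ne_zero (FractionalIdeal.coeIdeal_ne_zero.2 hb) hL
  have h3 : ((c - a : 𝓞 K) : K) * y₂ ∈ (b : FI K) * L :=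
    FractionalIdeal.mul_mem_mul (FractionalIdeal.mem_coeIdeal_of_mem _ h1) hy
  rw [h2, ca_add', ca_du hbL h3 hν, mul_one]

theorem tq_ac {b : Ideal (𝓞 K)} {L : FI K} {y₂ ν : K} (hb : b ≠ ⊥) (hL : L ≠ 0) (hy : y₂ ∈ L)
    (hν : ν ∈ du K ((b : FI K) * L)) : AC (tq b y₂ ν) where
  add x y := by
    obtain ⟨a, rfl⟩ := Ideal.Quotient.mk_surjective x
    obtain ⟨c, rfl⟩ := Ideal.Quotient.mk_surjective y
    rw [← map_add, tq_mk hb hL hy hν, tq_mk hb hL hy hν, tq_mk hb hL hy hν, ← ca_add']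
    congr 1
    push_cast
    ring
  norm x := ca_norm _ _

/-- the transform of a function of the coordinate -/
theorem ft_cq {b : Ideal (𝓞 K)} [Fintype (𝓞 K ⧸ b)] {L : FI K} {y₂ ν : K} (hb : b ≠ ⊥)
    (hL : L ≠ 0) (hG : Gn b L y₂) (hν : ν ∈ du K ((b : FI K) * L)) {X : Finset K}
    (hX : Rep K b L X) (h : 𝓞 K ⧸ b → ℂ) :
    ft K X (cq b h L y₂) ν = ∑ Y, h Y * tq b y₂ ν Y := by
  classical
  obtain ⟨q1, q2, -⟩ := Pool.Agent.H29.THC.pf_CQ K b h L y₂ hb hL hG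
  have hco : ∀ x : K, ∃ a : 𝓞 K, x ∈ L → x - (a : K) * y₂ ∈ (b : FI K) * L := by
    intro x
    by_cases hx : x ∈ L
    · obtain ⟨a, -, ha⟩ := hG.gen x hx
      exact ⟨a, fun _ => ha⟩
    · exact ⟨0, fun h => absurd h hx⟩
  choose co hco using hco
  have hbL : (b : FI K) * L ≠ 0 := mul_ne_zero (FractionalIdeal.coeIdeal_ne_zero.2 hb) hL
  unfold ft
  refine Finset.sum_bij (fun x _ => Ideal.Quotient.mk b (co x)) (fun _ _ => Finset.mem_univ _)
    ?_ ?_ ?_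
  · intro x hx x' hx' hxx
    rw [Ideal.Quotient.mk_eq_mk_iff_sub_mem] at hxx
    have h1 := hco x (hX.1 x hx)
    have h2 := hco x' (hX.1 x' hx')
    have h3 : ((co x - co x' : 𝓞 K) : K) * y₂ ∈ (b : FI K) * L :=
      FractionalIdeal.mul_mem_mul (FractionalIdeal.mem_coeIdeal_of_mem _ hxx) hG.mem
    have h4 : x - x' ∈ (b : FI K) * L := by
      have h5 : x - x' = (x - (co x : K) * y₂) - (x' - (co x' : K) * y₂) +
          ((co x - co x' : 𝓞 K) : K) * y₂ := by push_cast; ring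
      rw [h5]
      exact mem_add (mem_sub h1 h2) h3
    obtain ⟨r, -, hr⟩ := hX.2 x (hX.1 x hx)
    have h5 := hr x ⟨hx, by rw [sub_self]; exact mem_zero⟩
    have h6 := hr x' ⟨hx', h4⟩
    rw [h5, h6]
  · intro Y _
    obtain ⟨a, rfl⟩ := Ideal.Quotient.mk_surjective Y
    obtain ⟨r, ⟨hr, hr2⟩, -⟩ := hX.2 ((a : K) * y₂) (mem_smul L a hG.mem)
    refine ⟨r, hr, ?_⟩
    rw [Ideal.Quotient.mk_eq_mk_iff_sub_mem]
    refine coord hG le_rfl (hco r (hX.1 r hr)) (y := (a : K) * y₂) ?_ ?_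
    · rw [sub_self]
      exact mem_zero
    · have h1 := mem_neg hr2
      rwa [neg_sub] at h1
  · intro x hx
    have h1 := hco x (hX.1 x hx)
    rw [q1 _ x h1, tq_mk hb hL hG.mem hν]
    have h2 : ca K x ν = ca K ((co x : K) * y₂) ν := by
      have h3 : x = (co x : K) * y₂ + (x - (co x : K) * y₂) := by ring
      conv_lhs => rw [h3]
      rw [ca_add', ca_du hbL h1 hν, mul_one]
    rw [← h2]
    rfl

/-- the Chinese remainder theorem for functions of the coordinate -/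
theorem cq_mul {a b : Ideal (𝓞 K)} {L : FI K} {y₂ : K} (ha : a ≠ ⊥) (hb : b ≠ ⊥) (hL : L ≠ 0)
    (hG : Gn (a * b) L y₂) {h : 𝓞 K ⧸ (a * b) → ℂ} {h₁ : 𝓞 K ⧸ a → ℂ} {h₂ : 𝓞 K ⧸ b → ℂ}
    (hh : ∀ X : 𝓞 K, h (Ideal.Quotient.mk (a * b) X) =
      h₁ (Ideal.Quotient.mk a X) * h₂ (Ideal.Quotient.mk b X)) {z : K} (hz : z ∈ L) :
    cq (a * b) h L y₂ z = cq a h₁ L y₂ z * cq b h₂ L y₂ z := by
  have hab : a * b ≠ ⊥ := mul_ne_zero ha hb
  obtain ⟨q1, -, q3⟩ := Pool.Agent.H29.THC.pf_CQ K (a * b) h L y₂ hab hL hG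
  obtain ⟨X, -, hX⟩ := hG.gen z hz
  have hab1 : a * b ≤ a := Ideal.mul_le_left
  have hab2 : a * b ≤ b := Ideal.mul_le_right
  have h1 := (Pool.Agent.H29.THC.pf_CQ K a h₁ L y₂ ha hL (q3 a hab1)).1 X z (fi_mono hab1 L hX)
  have h2 := (Pool.Agent.H29.THC.pf_CQ K b h₂ L y₂ hb hL (q3 b hab2)).1 X z (fi_mono hab2 L hX)
  rw [q1 X z hX, h1, h2, hh]

/-- the correlation of two functions on a finite ring -/
noncomputable def cor {R : Type} [CommRing R] [Fintype R] (g₁ g₂ : R → ℂ) (X : R) : ℂ :=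
  ∑ Y, g₁ (Y + X) * (starRingEnd ℂ) (g₂ Y)

theorem ft_cor {R : Type} [CommRing R] [Fintype R] {θ : R → ℂ} (hθ : AC θ) (g₁ g₂ : R → ℂ) :
    ∑ X, cor g₁ g₂ X * θ X = (∑ Z, g₁ Z * θ Z) * (starRingEnd ℂ) (∑ Y, g₂ Y * θ Y) := by
  have h1 : ∀ x y : R, θ (x - y) = θ x * (starRingEnd ℂ) (θ y) := by
    intro x y
    have h2 : θ x = θ (x - y) * θ y := by rw [← hθ.add, sub_add_cancel]
    have h3 : θ y * (starRingEnd ℂ) (θ y) = 1 := by
      rw [Complex.mul_conj, Complex.normSq_eq_norm_sq, hθ.norm]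
      simp
    rw [h2, mul_assoc, h3, mul_one]
  unfold cor
  rw [map_sum, Finset.sum_mul_sum]
  simp_rw [Finset.sum_mul]
  rw [Finset.sum_comm]
  conv_rhs => rw [Finset.sum_comm]
  refine Finset.sum_congr rfl fun Y _ => ?_
  rw [← Equiv.sum_comp (Equiv.addRight Y) (fun Z => g₁ Z * θ Z *
    (starRingEnd ℂ) (g₂ Y * θ Y))]
  refine Finset.sum_congr rfl fun X _ => ?_
  have h2 : θ X = θ (X + Y) * (starRingEnd ℂ) (θ Y) := by rw [← h1, add_sub_cancel_right]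
  rw [Equiv.coe_addRight, map_mul, h2, add_comm Y X]
  ring

/-- representatives of a sublattice of index prime to the modulus -/
theorem rep_up {A f : Ideal (𝓞 K)} {M L : FI K} {X : Finset K} (hX : Rep K A M X)
    (hM : M = (f : FI K) * L) (hf : f ⊔ A = ⊤) : Rep K A L X := by
  obtain ⟨a, ha, b, hb, hab⟩ := Submodule.mem_sup.1 (hf ▸ Submodule.mem_top : (1 : 𝓞 K) ∈ f ⊔ A)
  have hML : ∀ x ∈ M, x ∈ L := by
    intro x hx
    rw [hM] at hx
    exact fi_le f L hx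
  have hAML : ∀ x ∈ (A : FI K) * M, x ∈ (A : FI K) * L := by
    intro x hx
    rw [hM, mul_left_comm] at hx
    exact fi_le f _ hx
  have hsm : ∀ (c : 𝓞 K) (J : Ideal (𝓞 K)) (N : FI K) (x : K), c ∈ J → x ∈ N →
      (c : K) * x ∈ (J : FI K) * N := fun c J N x hc hx =>
    FractionalIdeal.mul_mem_mul (FractionalIdeal.mem_coeIdeal_of_mem _ hc) hx
  have habK : (a : K) + (b : K) = 1 := by
    have h1 := congrArg (algebraMap (𝓞 K) K) hab
    rwa [map_add, map_one] at h1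
  refine ⟨fun r hr => hML r (hX.1 r hr), fun x hx => ?_⟩
  have h1 : (a : K) * x ∈ M := by
    rw [hM]
    exact hsm a f L x ha hx
  have h2 : (b : K) * x ∈ (A : FI K) * L := hsm b A L x hb hx
  have h3 : x = (a : K) * x + (b : K) * x := by rw [← add_mul, habK, one_mul]
  obtain ⟨r, ⟨hr, hr2⟩, hu⟩ := hX.2 _ h1
  refine ⟨r, ⟨hr, ?_⟩, ?_⟩
  · have h4 : x - r = ((a : K) * x - r) + (b : K) * x := by linear_combination h3
    rw [h4]
    exact mem_add (hAML _ hr2) h2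
  · rintro r' ⟨hr', hr2'⟩
    apply hu r' ⟨hr', ?_⟩
    have h4 : (a : K) * x - r' = (x - r') - (b : K) * x := by linear_combination -h3
    have h5 : (a : K) * x - r' ∈ (A : FI K) * L := by
      rw [h4]
      exact mem_sub hr2' h2
    have h6 : (a : K) * x - r' ∈ M := mem_sub h1 (hX.1 r' hr')
    have h7 : (a : K) * x - r' = (a : K) * ((a : K) * x - r') + (b : K) * ((a : K) * x - r') := by
      rw [← add_mul, habK, one_mul]
    rw [h7]
    refine mem_add ?_ (hsm b A M _ hb h6)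
    rw [hM, mul_left_comm]
    exact hsm a f _ _ ha h5

end Pool.Agent.H63.DF.CC
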