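import Pool.Agent.H63.DF.CCa

/-!
# Row CC, part b: the component modulo `k`
-/

set_option autoImplicit false

open NumberField Complex
open scoped nonZeroDivisors

namespace Pool.Agent.H63.DF.CC

open Pool.Agent.H25.HK Pool.Agent.H23.LB Pool.Agent.H23.LC
open Pool.Agent.H28.RC (Rep ft idl)
open Pool.Agent.H29.TC (Gn LC cq dvs AC MC)
open Pool.Agent.H31.SX
open Pool.Agent.H23.DM (Mz PhZ PY D_CC lg5 FM)
open Pool.Agent.H16.SWX (coord one_le_Nf)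
open Pool.Agent.H81.THC (fi_mono fi_le)
open Pool.Agent.H52.SX (mem_add mem_sub mem_neg mem_zero mem_smul ca_norm ca_mul_conj
  mem_iff_coord ca_comm nf_pos nf_le)

variable {K : Type} [Field K] [NumberField K]

/-- the function `η(Y + π) conj η(Y - π)` -/
noncomputable def gg (b : Ideal (𝓞 K)) (π : 𝓞 K) (η : 𝓞 K ⧸ b → ℂ) (Y : 𝓞 K ⧸ b) : ℂ :=
  η (Y + Ideal.Quotient.mk b π) * (starRingEnd ℂ) (η (Y - Ideal.Quotient.mk b π))

/-- the function `PhZ` on a general lattice -/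
noncomputable def pK (L : FI K) (k r : Ideal (𝓞 K)) (π Y₀ : 𝓞 K) (y₂ : K) (η : 𝓞 K ⧸ k → ℂ)
    (z : K) : ℂ := ci K r L ((Y₀ : K) * y₂) z * cq k (gg k π η) L y₂ z

theorem PhZ_eq (k r e : Ideal (𝓞 K)) (π Y₀ : 𝓞 K) (y₂ : K) (η : 𝓞 K ⧸ k → ℂ) :
    PhZ k r e π Y₀ y₂ η = pK (Mz K e) k r π Y₀ y₂ η := rfl

theorem pK_ext {L M : FI K} {k r : Ideal (𝓞 K)} {π Y₀ : 𝓞 K} {y₂ : K} (hk : k ≠ ⊥)
    (hkr : k ≤ r) (hL : L ≠ 0) (hM : M ≠ 0) (hGL : Gn k L y₂) (hGM : Gn k M y₂)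
    (hML : ∀ x ∈ (k : FI K) * M, x ∈ (k : FI K) * L) (η : 𝓞 K ⧸ k → ℂ) {z : K} (hz : z ∈ M) :
    pK M k r π Y₀ y₂ η z = pK L k r π Y₀ y₂ η z := by
  obtain ⟨X, -, hX⟩ := hGM.gen z hz
  have hXL := hML _ hX
  unfold pK
  rw [(Pool.Agent.H29.THC.pf_CQ K k (gg k π η) M y₂ hk hM hGM).1 X z hX,
    (Pool.Agent.H29.THC.pf_CQ K k (gg k π η) L y₂ hk hL hGL).1 X z hXL]
  congr 1
  have h1 : z - (Y₀ : K) * y₂ - ((X - Y₀ : 𝓞 K) : K) * y₂ = z - (X : K) * y₂ := by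
    push_cast; ring
  have h2 : z - (Y₀ : K) * y₂ ∈ (r : FI K) * M ↔ X - Y₀ ∈ r :=
    mem_iff_coord hGM (by rw [h1]; exact hX) r hkr
  have h3 : z - (Y₀ : K) * y₂ ∈ (r : FI K) * L ↔ X - Y₀ ∈ r :=
    mem_iff_coord hGL (by rw [h1]; exact hXL) r hkr
  unfold ci
  by_cases h : X - Y₀ ∈ r
  · rw [if_pos (h2.2 h), if_pos (h3.2 h)]
  · rw [if_neg (fun h4 => h (h2.1 h4)), if_neg (fun h4 => h (h3.1 h4))]

theorem ci_per {r : Ideal (𝓞 K)} {L : FI K} {ρ z t : K} (ht : t ∈ (r : FI K) * L) :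
    ci K r L ρ (z + t) = ci K r L ρ z := by
  unfold ci
  have h1 : z + t - ρ ∈ (r : FI K) * L ↔ z - ρ ∈ (r : FI K) * L := by
    constructor
    · intro h
      have h2 := mem_sub h ht
      have h3 : z + t - ρ - t = z - ρ := by ring
      rwa [h3] at h2
    · intro h
      have h2 := mem_add h ht
      have h3 : z - ρ + t = z + t - ρ := by ring
      rwa [h3] at h2
  by_cases h : z - ρ ∈ (r : FI K) * L
  · rw [if_pos h, if_pos (h1.2 h)]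
  · rw [if_neg h, if_neg (fun h4 => h (h1.1 h4))]

theorem pK_per {L : FI K} {k r : Ideal (𝓞 K)} {π Y₀ : 𝓞 K} {y₂ : K} (hk : k ≠ ⊥)
    (hkr : k ≤ r) (hL : L ≠ 0) (hGL : Gn k L y₂) (η : 𝓞 K ⧸ k → ℂ) {z t : K} (hz : z ∈ L)
    (ht : t ∈ (k : FI K) * L) : pK L k r π Y₀ y₂ η (z + t) = pK L k r π Y₀ y₂ η z := by
  unfold pK
  rw [(Pool.Agent.H29.THC.pf_CQ K k (gg k π η) L y₂ hk hL hGL).2.1 z hz t ht,
    ci_per (fi_mono hkr L ht)]

/-- the components of the function `PhZ` -/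
theorem pK_mul {L : FI K} {a b r : Ideal (𝓞 K)} {π Y₀ : 𝓞 K} {y₂ : K} (ha : a ≠ ⊥) (hb : b ≠ ⊥)
    (hL : L ≠ 0) (hG : Gn (a * b) L y₂) {η : 𝓞 K ⧸ (a * b) → ℂ} {η₁ : 𝓞 K ⧸ a → ℂ}
    {η₂ : 𝓞 K ⧸ b → ℂ} (h : ∀ X : 𝓞 K, η (Ideal.Quotient.mk (a * b) X) =
      η₁ (Ideal.Quotient.mk a X) * η₂ (Ideal.Quotient.mk b X)) {z : K} (hz : z ∈ L) :
    pK L (a * b) r π Y₀ y₂ η z = pK L b r π Y₀ y₂ η₂ z * cq a (gg a π η₁) L y₂ z := by
  unfold pK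
  rw [cq_mul ha hb hL hG (h := gg (a * b) π η) (h₁ := gg a π η₁) (h₂ := gg b π η₂) ?_ hz]
  · ring
  · intro X
    unfold gg
    rw [← map_add, ← map_sub, h, h, ← map_add, ← map_sub, ← map_add, ← map_sub, map_mul]
    ring

theorem cq_gg_mul {L : FI K} {a b : Ideal (𝓞 K)} {π : 𝓞 K} {y₂ : K} (ha : a ≠ ⊥) (hb : b ≠ ⊥)
    (hL : L ≠ 0) (hG : Gn (a * b) L y₂) {η : 𝓞 K ⧸ (a * b) → ℂ} {η₁ : 𝓞 K ⧸ a → ℂ}
    {η₂ : 𝓞 K ⧸ b → ℂ} (h : ∀ X : 𝓞 K, η (Ideal.Quotient.mk (a * b) X) =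
      η₁ (Ideal.Quotient.mk a X) * η₂ (Ideal.Quotient.mk b X)) {z : K} (hz : z ∈ L) :
    cq (a * b) (gg (a * b) π η) L y₂ z = cq a (gg a π η₁) L y₂ z * cq b (gg b π η₂) L y₂ z := by
  rw [cq_mul ha hb hL hG (h := gg (a * b) π η) (h₁ := gg a π η₁) (h₂ := gg b π η₂) ?_ hz]
  intro X
  unfold gg
  rw [← map_add, ← map_sub, h, h, ← map_add, ← map_sub, ← map_add, ← map_sub, map_mul]
  ring

/-- a multiplicative character modulo `k` as a character modulo `s * k` -/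
theorem exists_lift {s k : Ideal (𝓞 K)} (hsk : s ⊔ k = ⊤) (η₀ : 𝓞 K ⧸ k → ℂ) (hη : MC η₀) :
    ∃ (η : 𝓞 K ⧸ (s * k) → ℂ) (χ : 𝓞 K ⧸ s → ℂ), MC η ∧ (∀ x, IsUnit x → χ x = 1) ∧
      ∀ X : 𝓞 K, η (Ideal.Quotient.mk (s * k) X) =
        χ (Ideal.Quotient.mk s X) * η₀ (Ideal.Quotient.mk k X) := by
  classical
  let e := Ideal.quotientMulEquivQuotientProd s k (Ideal.isCoprime_iff_sup_eq.2 hsk)
  have he : ∀ x : 𝓞 K, e (Ideal.Quotient.mk (s * k) x) =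
      (Ideal.Quotient.mk s x, Ideal.Quotient.mk k x) := by
    intro x
    refine Prod.ext ?_ ?_
    · rw [Ideal.quotientMulEquivQuotientProd_fst]; rfl
    · rw [Ideal.quotientMulEquivQuotientProd_snd]; rfl
  have hu : ∀ x : 𝓞 K ⧸ (s * k), IsUnit x ↔ IsUnit (e x).1 ∧ IsUnit (e x).2 := by
    intro x
    rw [← Prod.isUnit_iff]
    exact (MulEquiv.isUnit_map e).symm
  refine ⟨fun x => (if IsUnit (e x).1 then 1 else 0) * η₀ (e x).2,
    fun x => if IsUnit x then 1 else 0, ⟨?_, ?_, ?_, ?_⟩, fun x hx => if_pos hx, ?_⟩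
  · rw [map_one, Prod.fst_one, Prod.snd_one, hη.one, if_pos isUnit_one, one_mul]
  · intro x y
    rw [map_mul, Prod.fst_mul, Prod.snd_mul, hη.mul]
    by_cases h1 : IsUnit (e x).1
    · by_cases h2 : IsUnit (e y).1
      · rw [if_pos h1, if_pos h2, if_pos (h1.mul h2)]
        ring
      · rw [if_pos h1, if_neg h2, if_neg (fun h => h2 (isUnit_of_mul_isUnit_right h))]
        ring
    · rw [if_neg h1, if_neg (fun h => h1 (isUnit_of_mul_isUnit_left h))]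
      ring
  · intro x hx
    obtain ⟨h1, h2⟩ := (hu x).1 hx
    rw [if_pos h1, one_mul, hη.unit _ h2]
  · intro x hx
    by_cases h1 : IsUnit (e x).1
    · have h2 : ¬ IsUnit (e x).2 := fun h => hx ((hu x).2 ⟨h1, h⟩)
      rw [hη.zero _ h2, mul_zero]
    · rw [if_neg h1, zero_mul]
  · intro X
    beta_reduce
    rw [he]

/-- the period of the component modulo `k` -/
theorem per_k {L M : FI K} {s k r A : Ideal (𝓞 K)} {π Y₀ : 𝓞 K} {y₂ : K} (hs : s ≠ ⊥)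
    (hk : k ≠ ⊥) (hsk : s ⊔ k = ⊤) (hkr : k ≤ r) (hL : L ≠ 0) (hM : M ≠ 0)
    (hG : Gn (s * k) L y₂) (hGM : Gn k M y₂) (hML : ∀ x ∈ M, x ∈ L)
    (hMk : ∀ J : Ideal (𝓞 K), ∀ x ∈ (J : FI K) * M, x ∈ (J : FI K) * L)
    (hπ : Ideal.span {π} ⊔ s = ⊤)
    (hper : ∀ η₀ : 𝓞 K ⧸ (s * k) → ℂ, MC η₀ → ∀ z ∈ L, ∀ t ∈ ((A * s : Ideal (𝓞 K)) : FI K) * L,
      pK L (s * k) r π Y₀ y₂ η₀ (z + t) = pK L (s * k) r π Y₀ y₂ η₀ z)
    (η₀ : 𝓞 K ⧸ k → ℂ) (hη : MC η₀) {z t : K} (hz : z ∈ M) (ht : t ∈ (A : FI K) * M) :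
    pK M k r π Y₀ y₂ η₀ (z + t) = pK M k r π Y₀ y₂ η₀ z := by
  obtain ⟨η, χ, h1, h2, h3⟩ := exists_lift hsk η₀ hη
  have hskk : s * k ≤ k := Ideal.mul_le_right
  have hsks : s * k ≤ s := Ideal.mul_le_left
  have hsk0 : s * k ≠ ⊥ := mul_ne_zero hs hk
  have hq3 := (Pool.Agent.H29.THC.pf_CQ K (s * k) (fun _ => 0) L y₂ hsk0 hL hG).2.2
  have hGk : Gn k L y₂ := hq3 k hskk
  have hGs : Gn s L y₂ := hq3 s hsks
  have hzt : z + t ∈ M := mem_add hz (fi_le A M ht)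
  obtain ⟨c, hc, d, hd, hcd⟩ :=
    Submodule.mem_sup.1 (hsk ▸ Submodule.mem_top : (1 : 𝓞 K) ∈ s ⊔ k)
  have hcdK : (c : K) + (d : K) = 1 := by
    have h4 := congrArg (algebraMap (𝓞 K) K) hcd
    rwa [map_add, map_one] at h4
  have hsm : ∀ (c : 𝓞 K) (J : Ideal (𝓞 K)) (N : FI K) (x : K), c ∈ J → x ∈ N →
      (c : K) * x ∈ (J : FI K) * N := fun c J N x hc hx =>
    FractionalIdeal.mul_mem_mul (FractionalIdeal.mem_coeIdeal_of_mem _ hc) hx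
  have hπu : IsUnit (Ideal.Quotient.mk s π) := Pool.Agent.H16.SWX.isUnit_of_sup hπ
  have hval : ∀ x ∈ L, cq s (gg s π χ) L y₂ ((c : K) * x) = 1 := by
    intro x hx
    have h4 : (c : K) * x ∈ (s : FI K) * L := hsm c s L x hc hx
    have h5 : (c : K) * x - ((0 : 𝓞 K) : K) * y₂ ∈ (s : FI K) * L := by
      have h0 : ((0 : 𝓞 K) : K) = 0 := map_zero (algebraMap (𝓞 K) K)
      rw [h0, zero_mul, sub_zero]
      exact h4
    rw [(Pool.Agent.H29.THC.pf_CQ K s (gg s π χ) L y₂ hs hL hGs).1 0 _ h5, map_zero]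
    unfold gg
    rw [zero_add, zero_sub, h2 _ hπu, h2 _ hπu.neg, one_mul, map_one]
  have hkey : ∀ x ∈ M, pK M k r π Y₀ y₂ η₀ x =
      pK L (s * k) r π Y₀ y₂ η ((c : K) * x) := by
    intro x hx
    rw [pK_mul hs hk hL hG h3 (mem_smul L c (hML x hx)), hval x (hML x hx), mul_one,
      pK_ext hk hkr hL hM hGk hGM (hMk k) η₀ hx]
    have h4 : (c : K) * x = x + -((d : K) * x) := by linear_combination x * hcdK
    rw [h4, pK_per hk hkr hL hGk η₀ (hML x hx) (mem_neg (hsm d k L x hd (hML x hx)))]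
  rw [hkey _ hzt, hkey _ hz, mul_add]
  apply hper η h1 _ (mem_smul L c (hML z hz))
  rw [mul_comm A s, FractionalIdeal.coeIdeal_mul, mul_assoc]
  exact hsm c s _ t hc (hMk A t ht)

theorem fi_cancel {A g : Ideal (𝓞 K)} {M : FI K} (hM : M ≠ 0)
    (h : ∀ x ∈ (A : FI K) * M, x ∈ (g : FI K) * M) : A ≤ g := by
  have h1 : (A : FI K) * M ≤ (g : FI K) * M := h
  have h2 := mul_le_mul_left h1 M⁻¹
  rw [mul_assoc, mul_assoc, mul_inv_cancel₀ hM, mul_one, mul_one] at h2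
  exact (FractionalIdeal.coeIdeal_le_coeIdeal K).1 h2

/-- the component modulo `k`: transforms and correlations on the larger lattice -/
theorem kpart (hCC : D_CC) (hRX : Pool.Agent.H28.RC.T_RX) {s k κ₀ e k' f : Ideal (𝓞 K)}
    {θ : 𝓞 K ⧸ k → ℂ} {ι : Type} {I : Finset ι} {ηk : ι → 𝓞 K ⧸ k → ℂ} {γ : ι → 𝓞 K}
    {π Y₀ : 𝓞 K} {y₂ : K} (hs : s ≠ ⊥) (hk : k ≠ ⊥) (hf : f ≠ ⊥) (hsk : s ⊔ k = ⊤)
    (h210 : Ideal.span {(210 : 𝓞 K)} ⊔ s * k = ⊤) (hkκ : k ≤ κ₀) (hκr : κ₀ ≤ k.radical)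
    (hκ6 : κ₀ ^ 6 ≤ k) (hFM : FM k κ₀ θ I ηk γ) (hek : k = e * k') (heκ : e ≤ κ₀)
    (hPY : PY (s * k) e (s * k') π y₂) (hG : Gn (s * k) (Mz K (e * f)) y₂)
    (hfq : f ⊔ s * k = ⊤)
    (hper : ∀ η₀ : 𝓞 K ⧸ (s * k) → ℂ, MC η₀ → ∀ z ∈ Mz K (e * f),
      ∀ t ∈ (((k.radical ⊓ k') * s : Ideal (𝓞 K)) : FI K) * Mz K (e * f),
      PhZ (s * k) k.radical (e * f) π Y₀ y₂ η₀ (z + t) =
        PhZ (s * k) k.radical (e * f) π Y₀ y₂ η₀ z) :
    ∃ Xe : Finset K, Rep K (k.radical ⊓ k') (Mz K (e * f)) Xe ∧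
      (∀ i ∈ I, ∀ x ∈ Mz K (e * f),
        ∀ t ∈ ((k.radical ⊓ k' : Ideal (𝓞 K)) : FI K) * Mz K (e * f),
        pK (Mz K (e * f)) k k.radical π Y₀ y₂ (ηk i) (x + t) =
          pK (Mz K (e * f)) k k.radical π Y₀ y₂ (ηk i) x) ∧
      (∀ i ∈ I, ∀ ν ∈ du K (((k.radical ⊓ k' : Ideal (𝓞 K)) : FI K) * Mz K (e * f)),
        ‖ft K Xe (pK (Mz K (e * f)) k k.radical π Y₀ y₂ (ηk i)) ν /
          ((Real.sqrt (Nf K k') : ℝ) : ℂ)‖ ^ 2 ≤ Nf K k.radical) ∧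
      (∀ i ∈ I, ‖ft K Xe (pK (Mz K (e * f)) k k.radical π Y₀ y₂ (ηk i)) 0 /
          ((Real.sqrt (Nf K k') : ℝ) : ℂ)‖ ^ 2 ≤ Nf K k.radical ^ 2 / Nf K k') ∧
      ∀ i ∈ I, ∀ j ∈ I, ∃ (C : K → ℂ) (g : Ideal (𝓞 K)), g ≠ ⊥ ∧ k.radical ⊓ k' ≤ g ∧
        Nf K (k' ⊔ Ideal.span {γ i - γ j}) ≤ Nf K g * Nf K k.radical ∧
        (∀ x ∈ Mz K (e * f), ∀ t ∈ ((k.radical ⊓ k' : Ideal (𝓞 K)) : FI K) * Mz K (e * f),
          C (x + t) = C x) ∧
        (∀ x ∈ Mz K (e * f), ‖C x‖ ^ 2 ≤ Nf K (k' ⊔ Ideal.span {γ i - γ j}) / Nf K k') ∧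
        (∀ x ∈ Mz K (e * f), C x ≠ 0 → x ∈ (g : FI K) * Mz K (e * f)) ∧
        (C 0 ≠ 0 → ∀ t ∈ k.radical, (γ i - γ j) * t ∈ k') ∧
        ∀ ν ∈ du K (((k.radical ⊓ k' : Ideal (𝓞 K)) : FI K) * Mz K (e * f)),
          ft K Xe C ν = ft K Xe (pK (Mz K (e * f)) k k.radical π Y₀ y₂ (ηk i)) ν /
            ((Real.sqrt (Nf K k') : ℝ) : ℂ) * (starRingEnd ℂ)
            (ft K Xe (pK (Mz K (e * f)) k k.radical π Y₀ y₂ (ηk j)) ν /
            ((Real.sqrt (Nf K k') : ℝ) : ℂ)) := by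
  obtain ⟨-, hespan, hgen, m, hm, hdual⟩ := hPY
  have hkr : k ≤ k.radical := Ideal.le_radical
  have hr0 : k.radical ≠ ⊥ := fun h => hk (le_bot_iff.1 (h ▸ hkr))
  have hkk' : k ≤ k' := by rw [hek]; exact Ideal.mul_le_right
  have hk'0 : k' ≠ ⊥ := fun h => hk (le_bot_iff.1 (h ▸ hkk'))
  have hke : k ≤ e := by rw [hek]; exact Ideal.mul_le_left
  have he0 : e ≠ ⊥ := fun h => hk (le_bot_iff.1 (h ▸ hke))
  have hkA : k ≤ k.radical ⊓ k' := le_inf hkr hkk'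
  have hA0 : k.radical ⊓ k' ≠ ⊥ := fun h => hk (le_bot_iff.1 (h ▸ hkA))
  have hskk : s * k ≤ k := Ideal.mul_le_right
  have hsks : s * k ≤ s := Ideal.mul_le_left
  have hsk0 : s * k ≠ ⊥ := mul_ne_zero hs hk
  have hfk : f ⊔ k = ⊤ := top_le_iff.1 (hfq ▸ sup_le_sup_left hskk f)
  have hMe : ∀ e : Ideal (𝓞 K), e ≠ ⊥ → Mz K e ≠ 0 := by
    intro e he
    unfold Mz
    refine mul_ne_zero ?_ (inv_ne_zero (FractionalIdeal.coeIdeal_ne_zero.2 he))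
    refine FractionalIdeal.coeIdeal_ne_zero.2 ?_
    rw [Ne, Ideal.span_singleton_eq_bot]
    exact two_ne_zero
  have hM0 : Mz K e ≠ 0 := hMe e he0
  have hL0 : Mz K (e * f) ≠ 0 := hMe _ (mul_ne_zero he0 hf)
  have hfL : Mz K e = (f : FI K) * Mz K (e * f) := by
    unfold Mz
    rw [FractionalIdeal.coeIdeal_mul, mul_inv, mul_left_comm, mul_left_comm (f : FI K),
      mul_inv_cancel₀ (FractionalIdeal.coeIdeal_ne_zero.2 hf), mul_one]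
  generalize hL : Mz K (e * f) = L at *
  generalize hM : Mz K e = M at *
  generalize hr : k.radical = r at *
  generalize hA : r ⊓ k' = A at *
  have hML : ∀ x ∈ M, x ∈ L := by
    intro x hx
    rw [hfL] at hx
    exact fi_le f L hx
  have hMk : ∀ J : Ideal (𝓞 K), ∀ x ∈ (J : FI K) * M, x ∈ (J : FI K) * L := by
    intro J x hx
    rw [hfL, mul_left_comm] at hx
    exact fi_le f _ hx
  have hsm : ∀ (c : 𝓞 K) (J : Ideal (𝓞 K)) (N : FI K) (x : K), c ∈ J → x ∈ N →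
      (c : K) * x ∈ (J : FI K) * N := fun c J N x hc hx =>
    FractionalIdeal.mul_mem_mul (FractionalIdeal.mem_coeIdeal_of_mem _ hc) hx
  have hGk : Gn k L y₂ :=
    (Pool.Agent.H29.THC.pf_CQ K (s * k) (fun _ => 0) L y₂ hsk0 hL0 hG).2.2 k hskk
  have hGM : Gn k M y₂ :=
    (Pool.Agent.H29.THC.pf_CQ K (s * k) (fun _ => 0) M y₂ hsk0 hM0 hgen).2.2 k hskk
  have hes : e ⊔ s = ⊤ := by
    rw [← top_le_iff, ← hsk, sup_comm s k]
    exact sup_le_sup_right hke s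
  have hπs : Ideal.span {π} ⊔ s = ⊤ := by
    rw [← top_le_iff, ← hes, hespan]
    exact sup_le (sup_le le_sup_left (hsks.trans le_sup_right)) le_sup_right
  have hPY' : PY k e k' π y₂ := by
    refine ⟨hek, ?_, hM.symm ▸ hGM, m, ?_, hdual⟩
    · apply le_antisymm
      · rw [hespan]
        exact sup_le le_sup_left (hskk.trans le_sup_right)
      · refine sup_le ?_ hke
        rw [hespan]
        exact le_sup_left
    · have h1 : s * k' ≤ k' := Ideal.mul_le_right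
      exact h1 hm
  obtain ⟨Xe, hXe, -⟩ := hRX K A M hA0 hM0
  have hXL : Rep K A L Xe := by
    refine rep_up hXe hfL ?_
    rw [← top_le_iff, ← hfk]
    exact sup_le_sup_left hkA f
  have hperk : ∀ η₀ : 𝓞 K ⧸ k → ℂ, MC η₀ → ∀ z ∈ M, ∀ t ∈ (A : FI K) * M,
      pK M k r π Y₀ y₂ η₀ (z + t) = pK M k r π Y₀ y₂ η₀ z := by
    intro η₀ hη z hz t ht
    refine per_k hs hk hsk hkr hL0 hM0 hG hGM hML hMk hπs ?_ η₀ hη hz ht
    intro η₁ h1 z hz t ht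
    have h2 := hper η₁ h1 z hz t ht
    rw [PhZ_eq, hL] at h2
    exact h2
  have h210k : Ideal.span {(210 : 𝓞 K)} ⊔ k = ⊤ :=
    top_le_iff.1 (h210 ▸ sup_le_sup_left hskk _)
  have hco := hCC K k κ₀ e k' θ ι I ηk γ π Y₀ y₂ Xe hk h210k hkκ (hr.symm ▸ hκr) hκ6 hFM hPY'
    heκ (by rw [hr, hA, hM]; exact hXe) (by
      intro η₀ hη z hz t ht
      rw [hr, hA, hM] at ht
      rw [hM] at hz
      rw [hr, PhZ_eq, hM]
      exact hperk η₀ hη z hz t ht)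
  rw [hr] at hco
  obtain ⟨hc1, hc2, hc3⟩ := hco
  have hpk : ∀ (η₀ : 𝓞 K ⧸ k → ℂ) (ν : K), ft K Xe (PhZ k r e π Y₀ y₂ η₀) ν =
      ft K Xe (pK L k r π Y₀ y₂ η₀) ν := by
    intro η₀ ν
    refine ft_congr fun x hx => ?_
    rw [PhZ_eq, hM]
    exact pK_ext hk hkr hL0 hM0 hGk hGM (hMk k) η₀ (hXe.1 x hx)
  have hAL0 : (A : FI K) * L ≠ 0 := mul_ne_zero (FractionalIdeal.coeIdeal_ne_zero.2 hA0) hL0
  have hAM0 : (A : FI K) * M ≠ 0 := mul_ne_zero (FractionalIdeal.coeIdeal_ne_zero.2 hA0) hM0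
  have hNz : ∀ ν ∈ du K ((A : FI K) * L), ν ∈ Pool.Agent.H23.DM.Nz K r k' e := by
    intro ν hν
    unfold Pool.Agent.H23.DM.Nz
    rw [hA, hM]
    exact du_mono hAM0 hAL0 (hMk A) hν
  obtain ⟨a, ha, b, hb, hab⟩ :=
    Submodule.mem_sup.1 (hfk ▸ Submodule.mem_top : (1 : 𝓞 K) ∈ f ⊔ k)
  have habK : (a : K) + (b : K) = 1 := by
    have h4 := congrArg (algebraMap (𝓞 K) K) hab
    rwa [map_add, map_one] at h4
  have haM : ∀ x ∈ L, (a : K) * x ∈ M := by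
    intro x hx
    rw [hfL]
    exact hsm a f L x ha hx
  have haAM : ∀ (J : Ideal (𝓞 K)), ∀ x ∈ (J : FI K) * L, (a : K) * x ∈ (J : FI K) * M := by
    intro J x hx
    rw [hfL, mul_left_comm]
    exact hsm a f _ x ha hx
  refine ⟨Xe, hXL, ?_, ?_, ?_, ?_⟩
  · intro i hi x hx t ht
    have h1 : ∀ x ∈ L, pK L k r π Y₀ y₂ (ηk i) x = pK M k r π Y₀ y₂ (ηk i) ((a : K) * x) := by
      intro x hx
      rw [pK_ext hk hkr hL0 hM0 hGk hGM (hMk k) _ (haM x hx)]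
      have h4 : (a : K) * x = x + -((b : K) * x) := by linear_combination x * habK
      rw [h4, pK_per hk hkr hL0 hGk _ hx (mem_neg (hsm b k L x hb hx))]
    rw [h1 _ (mem_add hx (fi_le A L ht)), h1 x hx, mul_add]
    exact hperk _ (hFM.lc i hi).mc _ (haM x hx) _ (haAM A t ht)
  · intro i hi ν hν
    have h1 := hc1 i hi ν (hNz ν hν)
    beta_reduce at h1
    rwa [hpk] at h1
  · intro i hi
    have h0 : (0 : K) ∈ du K ((A : FI K) * L) := mem_zero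
    have h1 := hc1 i hi 0 (hNz 0 h0)
    have h2 := hc2 i hi
    beta_reduce at h1 h2
    rw [hpk] at h1 h2
    have hr1 : 1 ≤ Nf K r := one_le_Nf hr0
    have hk1 : 0 < Nf K k' := nf_pos hk'0
    by_cases h3 : ft K Xe (pK L k r π Y₀ y₂ (ηk i)) 0 / ((Real.sqrt (Nf K k') : ℝ) : ℂ) = 0
    · rw [h3, norm_zero, zero_pow two_ne_zero]
      positivity
    · have h4 := nf_le hr0 (h2 h3)
      refine h1.trans ?_
      rw [le_div_iff₀ hk1, pow_two]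
      exact mul_le_mul_of_nonneg_left h4 (by linarith)
  · intro i hi j hj
    obtain ⟨C, g, hg0, hg1, hg2, hg3, hg4, hg5, hg6⟩ := hc3 i hi j hj
    rw [hM] at hg3 hg4 hg2 hg6
    rw [hA] at hg2 hg6
    have hCa : ∀ x ∈ M, C ((a : K) * x) = C x := by
      intro x hx
      have h4 : (a : K) * x = x + -((b : K) * x) := by linear_combination x * habK
      rw [h4]
      exact hg2 x hx _ (mem_neg (fi_mono hkA M (hsm b k M x hb hx)))
    have hper' : ∀ x ∈ L, ∀ t ∈ (A : FI K) * L, C ((a : K) * (x + t)) = C ((a : K) * x) := by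
      intro x hx t ht
      rw [mul_add]
      exact hg2 _ (haM x hx) _ (haAM A t ht)
    have hft' : ∀ ν ∈ du K ((A : FI K) * L), ft K Xe (fun x => C ((a : K) * x)) ν =
        ft K Xe (pK L k r π Y₀ y₂ (ηk i)) ν / ((Real.sqrt (Nf K k') : ℝ) : ℂ) *
        (starRingEnd ℂ) (ft K Xe (pK L k r π Y₀ y₂ (ηk j)) ν /
          ((Real.sqrt (Nf K k') : ℝ) : ℂ)) := by
      intro ν hν
      have h1 := hg6 Xe hXe ν (hNz ν hν)
      beta_reduce at h1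
      rw [hpk, hpk] at h1
      rw [← h1]
      exact ft_congr fun x hx => hCa x (hXe.1 x hx)
    have ha0 : (a : K) * 0 = 0 := mul_zero _
    have hkg : k' ≤ k' ⊔ Ideal.span {γ i - γ j} := le_sup_left
    by_cases hz : ∃ x ∈ M, C x ≠ 0
    · obtain ⟨x, hx, hCx⟩ := hz
      have hAg : A ≤ g := by
        refine fi_cancel hM0 fun t ht => ?_
        have h1 := hg4 x hx hCx
        have h2 := hg4 (x + t) (mem_add hx (fi_le A M ht)) (by rw [hg2 x hx t ht]; exact hCx)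
        have h3 := mem_sub h2 h1
        rwa [add_sub_cancel_left] at h3
      refine ⟨fun x => C ((a : K) * x), g, hg0, hAg, hg1, hper', ?_, ?_, ?_, hft'⟩
      · intro x hx
        exact hg3 _ (haM x hx)
      · intro x hx hne
        have h1 := hg4 _ (haM x hx) hne
        have h2 : x = (a : K) * x + (b : K) * x := by linear_combination -x * habK
        rw [h2]
        exact mem_add (hMk g _ h1) (fi_mono (hkA.trans hAg) L (hsm b k L x hb hx))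
      · intro h
        beta_reduce at h
        rw [ha0] at h
        exact hg5 h
    · have hz' : ∀ x ∈ L, C ((a : K) * x) = 0 := by
        intro x hx
        by_contra h
        exact hz ⟨_, haM x hx, h⟩
      have hNN : 0 ≤ Nf K (k' ⊔ Ideal.span {γ i - γ j}) := by unfold Nf; positivity
      refine ⟨fun x => C ((a : K) * x), k' ⊔ Ideal.span {γ i - γ j}, ?_, ?_, ?_, hper', ?_, ?_,
        ?_, hft'⟩
      · intro h
        exact hk'0 (le_bot_iff.1 (h ▸ hkg))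
      · rw [← hA]
        exact inf_le_right.trans hkg
      · exact le_mul_of_one_le_right hNN (one_le_Nf hr0)
      · intro x hx
        exact hg3 _ (haM x hx)
      · intro x hx hne
        exact absurd (hz' x hx) hne
      · intro h
        exact absurd (hz' 0 mem_zero) h

end Pool.Agent.H63.DF.CC
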