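import Pool.Agent.H63.DF.CCb
import Pool.Agent.H63.DF.LS
import Pool.Agent.H23.DF.TargetsG
import Pool.Agent.H23.DM.TargetsG

/-!
# Row CC, part c: the squarefree component and the number of the lattice points
-/

set_option autoImplicit false

open NumberField NumberField.InfinitePlace Complex
open scoped nonZeroDivisors

namespace Pool.Agent.H63.DF.CC

open Pool.Agent.H25.HK Pool.Agent.H23.LB Pool.Agent.H23.LC
open Pool.Agent.H28.RC (Rep ft idl)
open Pool.Agent.H29.DW (dg rv)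
open Pool.Agent.H29.TC (Gn LC cq dvs AC MC)
open Pool.Agent.H31.SW (DD PP)
open Pool.Agent.H27.TM (mc bt)
open Pool.Agent.H23.DM (Mz D_ZT)
open Pool.Agent.H23.DF (F_LN F_LS)
open Pool.Agent.H63.DF.LS (mem_dvs card_pos Nf_mul Nf_pos Nf_top)
open Pool.Agent.H52.SX (mem_zero)

/-- the number of the nonzero points of a lattice in a box -/
theorem count (hZT : D_ZT) (hLN : F_LN) (n : ℕ) (hn : 0 < n) : ∃ C : ℝ, 1 ≤ C ∧
    ∀ (K : Type) [Field K] [NumberField K], Module.finrank ℚ K = n →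
    ∀ (J F : Ideal (𝓞 K)) (β : InfinitePlace K → ℝ) (X₁ : Finset K), J ≠ ⊥ → F ≠ ⊥ →
    (∀ v, 0 < β v) → (∀ x ∈ X₁, x ∈ (J : FI K) * Mz K F ∧ x ≠ 0 ∧
      ∀ v : InfinitePlace K, ‖v.embedding x‖ ≤ β v) →
    (X₁.card : ℝ) ≤ C * (Nf K F / Nf K J * PP β) := by
  obtain ⟨C, hC, h⟩ := hZT n 5 hn le_rfl
  refine ⟨max 1 (C * (4 * Real.pi) ^ n), le_max_left _ _, ?_⟩
  intro K _ _ hK J F β X₁ hJ hF hβ hX
  obtain ⟨hM0, -, hD, -, hDJ, -⟩ := hLN K ⊤ F (by
    intro h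
    have h1 : (1 : 𝓞 K) ∈ (⊤ : Ideal (𝓞 K)) := trivial
    rw [h, Ideal.mem_bot] at h1
    exact one_ne_zero h1) hF
  obtain ⟨hL0, hDL⟩ := hDJ J (Mz K F) 0 hJ hM0
  have hdg : ∀ v : InfinitePlace K, 0 < (dg (rv v) : ℝ) ∧ (dg (rv v) : ℝ) ≤ 2 := by
    intro v
    unfold dg
    split_ifs
    · norm_num
    · norm_num
  have hπ := Real.pi_pos
  set α : InfinitePlace K → ℝ := fun v => 2 * Real.pi * dg (rv v) * β v with hα
  have hα0 : ∀ v, 0 < α v := fun v => by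
    have := (hdg v).1
    have := hβ v
    rw [hα]
    positivity
  obtain ⟨h1, h2, -, -⟩ := h K hK ((J : FI K) * Mz K F) α 0 1 hL0 hα0 le_rfl
  have hbt : ∀ v, bt α 0 v = 1 := by
    intro v
    unfold bt
    rw [Pi.zero_apply, mul_zero]
    exact max_eq_left zero_le_one
  have hsub : (X₁ : Set K) ⊆ {ν : K | ν ∈ (J : FI K) * Mz K F ∧ ν ≠ 0 ∧
      ∀ v, ‖mc α ν v‖ ≤ 1 * bt α 0 v} := by
    intro x hx
    obtain ⟨h3, h4, h5⟩ := hX x hx
    refine ⟨h3, h4, fun v => ?_⟩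
    rw [hbt, one_mul]
    unfold mc
    rw [norm_mul, Complex.norm_real]
    have h6 : (2 * Real.pi * dg (rv v) / α v : ℝ) = 1 / β v := by
      rw [hα]
      have := (hdg v).1
      have := hβ v
      field_simp
    rw [h6, Real.norm_of_nonneg (by have := hβ v; positivity), one_div,
      inv_mul_le_iff₀ (hβ v), mul_one]
    exact h5 v
  have h3 : (X₁.card : ℝ) ≤ ({ν : K | ν ∈ (J : FI K) * Mz K F ∧ ν ≠ 0 ∧
      ∀ v, ‖mc α ν v‖ ≤ 1 * bt α 0 v}.ncard : ℝ) := by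
    rw [← Set.ncard_coe_finset]
    exact_mod_cast Set.ncard_le_ncard hsub h1
  have hPb : PP (bt α 0) = 1 := by
    unfold PP
    exact Finset.prod_eq_one fun v _ => by rw [hbt, one_pow]
  have hPβ : 0 ≤ PP β := by
    unfold PP
    exact Finset.prod_nonneg fun v _ => pow_nonneg (hβ v).le _
  have hPα : PP α ≤ (4 * Real.pi) ^ n * PP β := by
    have h4 : (4 * Real.pi) ^ n * PP β = ∏ v : InfinitePlace K, (4 * Real.pi * β v) ^ v.mult := by
      unfold PP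
      rw [← hK, ← InfinitePlace.sum_mult_eq (K := K), ← Finset.prod_pow_eq_pow_sum,
        ← Finset.prod_mul_distrib]
      exact Finset.prod_congr rfl fun v _ => (mul_pow _ _ _).symm
    rw [h4]
    unfold PP
    refine Finset.prod_le_prod (fun v _ => pow_nonneg (hα0 v).le _) fun v _ => ?_
    refine pow_le_pow_left₀ (hα0 v).le ?_ _
    rw [hα]
    refine mul_le_mul_of_nonneg_right ?_ (hβ v).le
    nlinarith [(hdg v).2]
  have hJ0 := Nf_pos hJ
  have hF0 := Nf_pos hF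
  have hDD : DD ((J : FI K) * Mz K F) 0 ≤ Nf K F / Nf K J := by
    rw [hDL, hD 0, hK]
    refine div_le_div_of_nonneg_right ?_ hJ0.le
    have h4 : Real.exp (-(∑ v : InfinitePlace K, (v.mult : ℝ) *
        (0 : InfinitePlace K → ℝ) v) / 2) = 1 := by simp
    rw [h4, one_mul]
    exact div_le_self hF0.le (one_le_pow₀ one_le_two)
  rw [hPb, mul_one, one_pow, mul_one] at h2
  have hPα0 : 0 ≤ PP α := by
    unfold PP
    exact Finset.prod_nonneg fun v _ => pow_nonneg (hα0 v).le _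
  calc (X₁.card : ℝ) ≤ C * (DD ((J : FI K) * Mz K F) 0 * PP α) := h3.trans h2
    _ ≤ C * (Nf K F / Nf K J * ((4 * Real.pi) ^ n * PP β)) := by
        refine mul_le_mul_of_nonneg_left ?_ hC
        exact mul_le_mul hDD hPα hPα0 (by positivity)
    _ = C * (4 * Real.pi) ^ n * (Nf K F / Nf K J * PP β) := by ring
    _ ≤ _ := by
        refine mul_le_mul_of_nonneg_right (le_max_right _ _) ?_
        positivity

variable {K : Type} [Field K] [NumberField K]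

/-- divisors of a squarefree ideal -/
theorem sqf {a b : Ideal (𝓞 K)} (hab : a * b ≠ ⊥) (h : (a * b).radical = a * b) :
    a.radical = a ∧ b.radical = b ∧ a ⊔ b = ⊤ := by
  have ha : a ≠ ⊥ := fun h => hab (by rw [h, Ideal.bot_mul])
  have hb : b ≠ ⊥ := fun h => hab (by rw [h, Ideal.mul_bot])
  obtain ⟨c, hc⟩ := Ideal.dvd_iff_le.2 (Ideal.le_radical : a ≤ a.radical)
  obtain ⟨d, hd⟩ := Ideal.dvd_iff_le.2 (Ideal.le_radical : b ≤ b.radical)
  rw [Ideal.radical_mul] at h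
  have h1 : a.radical * b.radical ≤ a * b := Ideal.mul_le_inf.trans h.le
  have h2 : a * b = (a.radical * b.radical) * (c * d) := by
    conv_lhs => rw [hc, hd]
    rw [mul_mul_mul_comm]
  have h3 : a * b = a.radical * b.radical :=
    le_antisymm (Ideal.mul_mono Ideal.le_radical Ideal.le_radical) h1
  have h4 : a.radical * b.radical ≠ 0 := by
    rw [← h3]
    exact hab
  have h5 : c * d = 1 := by
    apply mul_left_cancel₀ h4
    rw [← h2, ← h3, mul_one]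
  have h6 : c = 1 := by
    have h7 : c ∣ 1 := ⟨d, h5.symm⟩
    rwa [Ideal.dvd_iff_le, Ideal.one_eq_top, top_le_iff, ← Ideal.one_eq_top] at h7
  have h7 : d = 1 := by rw [← h5, h6, one_mul]
  rw [h6, mul_one] at hc
  rw [h7, mul_one] at hd
  refine ⟨hc.symm, hd.symm, ?_⟩
  have h8 := Ideal.sup_mul_inf a b
  rw [← hc, ← hd] at h
  rw [h] at h8
  rw [← Ideal.one_eq_top]
  apply mul_right_cancel₀ hab
  rw [h8, one_mul]

theorem ca_zero (x : K) : ca K x 0 = 1 := by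
  rw [ca_comm']
  unfold ca
  rw [zero_mul, map_zero]
  simp
where ca_comm' : ca K x 0 = ca K 0 x := Pool.Agent.H52.SX.ca_comm x 0

/-- the transform of the squarefree component -/
theorem ls_ft (hLS : F_LS) {s : Ideal (𝓞 K)} {L : FI K} {y₂ : K} {X : Finset K} {π : 𝓞 K}
    (hs : s ≠ ⊥) (hL : L ≠ 0) (hG : Gn s L y₂) (hX : Rep K s L X) (hrad : s.radical = s)
    (h2 : Ideal.span {(2 : 𝓞 K)} ⊔ s = ⊤) (hπ : Ideal.span {π} ⊔ s = ⊤) {η : 𝓞 K ⧸ s → ℂ}
    (hη : LC s η) :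
    (∀ ν ∈ du K ((s : FI K) * L), ‖ft K X (cq s (gg s π η) L y₂) ν‖ ≤
      (dvs K s).card * Real.sqrt (Nf K s)) ∧
    ‖ft K X (cq s (gg s π η) L y₂) 0‖ ≤ 1 := by
  have hF : Finite (𝓞 K ⧸ s) := Ideal.finiteQuotientOfFreeOfNeBot s hs
  let _ : Fintype (𝓞 K ⧸ s) := Fintype.ofFinite _
  obtain ⟨h3, h4, -⟩ := hLS K s hs hrad h2 η η (Ideal.Quotient.mk s π) hη hη
    (Pool.Agent.H16.SWX.isUnit_of_sup hπ)
  constructor
  · intro ν hν
    rw [ft_cq hs hL hG hν hX]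
    exact h3 _ (tq_ac hs hL hG.mem hν)
  · have h0 : (0 : K) ∈ du K ((s : FI K) * L) := mem_zero
    rw [ft_cq hs hL hG h0 hX]
    have h5 : ∀ Y : 𝓞 K ⧸ s, gg s π η Y * tq s y₂ 0 Y = gg s π η Y := by
      intro Y
      unfold tq
      rw [ca_zero, mul_one]
    rw [Finset.sum_congr rfl fun Y _ => h5 Y]
    exact h4

/-- the correlation of the squarefree component -/
theorem ls_cor (hLS : F_LS) {s : Ideal (𝓞 K)} [Fintype (𝓞 K ⧸ s)] {π : 𝓞 K}
    (hs : s ≠ ⊥) (hrad : s.radical = s)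
    (h2 : Ideal.span {(2 : 𝓞 K)} ⊔ s = ⊤) (hπ : Ideal.span {π} ⊔ s = ⊤) {η η' : 𝓞 K ⧸ s → ℂ}
    (hη : LC s η) (hη' : LC s η') :
    (∀ x : 𝓞 K, ‖cor (gg s π η) (gg s π η') (Ideal.Quotient.mk s x)‖ ≤
      (dvs K s).card ^ 2 * Real.sqrt (Nf K s * Nf K (s ⊔ Ideal.span {x}))) ∧
    ∀ γ : 𝓞 K, (∀ P κ' : Ideal (𝓞 K), P.IsPrime → s = κ' * P →
      (γ ∈ P ↔ ∀ t ∈ κ', η (Ideal.Quotient.mk s (1 + t)) = η' (Ideal.Quotient.mk s (1 + t)))) →
      ‖cor (gg s π η) (gg s π η') 0‖ ≤ Nf K (s ⊔ Ideal.span {γ}) := by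
  obtain ⟨-, -, h3, h4⟩ := hLS K s hs hrad h2 η η' (Ideal.Quotient.mk s π) hη hη'
    (Pool.Agent.H16.SWX.isUnit_of_sup hπ)
  refine ⟨fun x => h3 x, fun γ hγ => ?_⟩
  unfold cor
  simp_rw [add_zero]
  exact h4 γ hγ

theorem dvs_mono {a b : Ideal (𝓞 K)} (ha : a ≠ ⊥) (hab : a ≤ b) :
    ((dvs K b).card : ℝ) ≤ (dvs K a).card := by
  have hb : b ≠ ⊥ := fun h => ha (le_bot_iff.1 (h ▸ hab))
  have h1 : dvs K b ⊆ dvs K a := by
    intro e he
    rw [mem_dvs hb] at he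
    rw [mem_dvs ha]
    exact hab.trans he
  exact_mod_cast Finset.card_le_card h1

end Pool.Agent.H63.DF.CC
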